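import Pool.Agent.MP_fc1aea_an.H30.Tree

namespace Pool.Agent.MP_fc1aea_an.H30
open Filter Topology MeasureTheory

noncomputable section

abbrev mu0 : Measure ℝ := volume.restrict (Set.Icc (0:ℝ) 1)

abbrev L : Type := Lp ℝ 1 mu0

/-- left end point of the dyadic interval of a node -/
def lo : List Bool → ℝ
  | [] => 0
  | b :: B => lo B + (if b then wt B / 2 else 0)

def cell (B : List Bool) : Set ℝ := Set.Ico (lo B) (lo B + wt B)

theorem cell_meas (B : List Bool) : MeasurableSet (cell B) := measurableSet_Ico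

def Pf (B : List Bool) (f : L) : L :=
  ((Lp.memLp f).indicator (cell_meas B)).toLp ((cell B).indicator f)

theorem Pf_coe (B : List Bool) (f : L) : Pf B f =ᵐ[mu0] (cell B).indicator f :=
  MemLp.coeFn_toLp _

theorem Pf_add (B : List Bool) (f g : L) : Pf B (f + g) = Pf B f + Pf B g := by
  apply Lp.ext
  filter_upwards [Pf_coe B (f + g), Lp.coeFn_add (Pf B f) (Pf B g), Pf_coe B f, Pf_coe B g,
    Lp.coeFn_add f g] with x h1 h2 h3 h4 h5
  rw [h1, h2, Pi.add_apply, h3, h4]
  by_cases hx : x ∈ cell B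
  · simp only [Set.indicator_of_mem hx, h5, Pi.add_apply]
  · simp only [Set.indicator_of_notMem hx, add_zero]

theorem Pf_smul (B : List Bool) (a : ℝ) (f : L) : Pf B (a • f) = a • Pf B f := by
  apply Lp.ext
  filter_upwards [Pf_coe B (a • f), Lp.coeFn_smul a (Pf B f), Pf_coe B f,
    Lp.coeFn_smul a f] with x h1 h2 h3 h5
  rw [h1, h2, Pi.smul_apply, h3]
  by_cases hx : x ∈ cell B <;> simp [hx, h5]

theorem Pf_norm (B : List Bool) (f : L) : ‖Pf B f‖ ≤ ‖f‖ := by
  apply Lp.norm_le_norm_of_ae_le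
  filter_upwards [Pf_coe B f] with x h1
  rw [h1]
  exact norm_indicator_le_norm_self _ _

/-- multiplication by the indicator of the cell -/
def P (B : List Bool) : L →L[ℝ] L :=
  LinearMap.mkContinuous
    { toFun := Pf B, map_add' := Pf_add B, map_smul' := Pf_smul B } 1
    (fun f => by simpa using Pf_norm B f)

theorem P_coe (B : List Bool) (f : L) : P B f =ᵐ[mu0] (cell B).indicator f := Pf_coe B f

theorem P_norm_le (B : List Bool) (f : L) : ‖P B f‖ ≤ ‖f‖ := Pf_norm B f

/-- the integral -/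
def I : L →L[ℝ] ℝ := L1.integralCLM

theorem I_eq (f : L) : I f = ∫ x, f x ∂mu0 := by
  rw [I, ← L1.integral_eq, L1.integral_eq_integral]

/-- the constant function one -/
def one : L := (memLp_const (1:ℝ)).toLp (fun _ => (1:ℝ))

theorem one_coe : (one : L) =ᵐ[mu0] fun _ => (1:ℝ) := MemLp.coeFn_toLp _

/-- mass of a node -/
def ms (B : List Bool) : L →L[ℝ] ℝ := I.comp (P B)

theorem ms_def (B : List Bool) (f : L) : ms B f = I (P B f) := rfl

/-- normalized indicator of a node -/
def h (B : List Bool) : L := (wt B)⁻¹ • P B one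

theorem dyada_lo_false (B : List Bool) : lo (false :: B) = lo B := by simp [lo]

theorem dyada_lo_true (B : List Bool) : lo (true :: B) = lo B + wt B / 2 := by simp [lo]

theorem dyada_cell_cons (b : Bool) (B : List Bool) : cell (b :: B) ⊆ cell B := by
  intro x hx
  have hw := wt_pos B
  cases b
  · simp only [cell, dyada_lo_false, wt_cons, Set.mem_Ico] at hx ⊢
    constructor <;> linarith [hx.1, hx.2]
  · simp only [cell, dyada_lo_true, wt_cons, Set.mem_Ico] at hx ⊢
    constructor <;> linarith [hx.1, hx.2]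

theorem dyada_cell_nil : cell [] = Set.Ico 0 1 := by simp [cell, lo]

theorem cell_subset (B : List Bool) : cell B ⊆ Set.Ico 0 1 := by
  induction B with
  | nil => rw [dyada_cell_nil]
  | cons b B ih => exact (dyada_cell_cons b B).trans ih

theorem cell_append (C A : List Bool) : cell (C ++ A) ⊆ cell A := by
  induction C with
  | nil => exact subset_rfl
  | cons b C ih => exact (dyada_cell_cons b (C ++ A)).trans ih

theorem cell_disj (A : List Bool) : Disjoint (cell (false :: A)) (cell (true :: A)) := by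
  rw [Set.disjoint_left]
  intro x h0 h1
  simp only [cell, dyada_lo_false, dyada_lo_true, wt_cons, Set.mem_Ico] at h0 h1
  linarith [h0.2, h1.1]

theorem cell_union (A : List Bool) : cell (false :: A) ∪ cell (true :: A) = cell A := by
  refine Set.Subset.antisymm
    (Set.union_subset (dyada_cell_cons _ _) (dyada_cell_cons _ _)) fun x hx => ?_
  simp only [cell, dyada_lo_false, dyada_lo_true, wt_cons, Set.mem_Ico, Set.mem_union] at hx ⊢
  rcases lt_or_ge x (lo A + wt A / 2) with h1 | h1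
  · exact Or.inl ⟨hx.1, h1⟩
  · exact Or.inr ⟨h1, by linarith [hx.2]⟩

theorem dyada_ae_mem : ∀ᵐ x ∂mu0, x ∈ Set.Ico (0:ℝ) 1 := by
  have h1 : mu0 = volume.restrict (Set.Ico (0:ℝ) 1) :=
    (Measure.restrict_congr_set Ico_ae_eq_Icc).symm
  rw [h1]
  exact ae_restrict_mem measurableSet_Ico

theorem dyada_P_P_sub {A B : List Bool} (hAB : cell A ⊆ cell B) (f : L) :
    P A (P B f) = P A f := by
  apply Lp.ext
  filter_upwards [P_coe A (P B f), P_coe B f, P_coe A f] with x h1 h2 h3
  rw [h1, h3]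
  by_cases hx : x ∈ cell A
  · rw [Set.indicator_of_mem hx, Set.indicator_of_mem hx, h2, Set.indicator_of_mem (hAB hx)]
  · rw [Set.indicator_of_notMem hx, Set.indicator_of_notMem hx]

theorem dyada_P_P_sub' {A B : List Bool} (hAB : cell A ⊆ cell B) (f : L) :
    P B (P A f) = P A f := by
  apply Lp.ext
  filter_upwards [P_coe B (P A f), P_coe A f] with x h1 h2
  rw [h1]
  by_cases hx : x ∈ cell B
  · rw [Set.indicator_of_mem hx]
  · rw [Set.indicator_of_notMem hx, h2, Set.indicator_of_notMem (fun h => hx (hAB h))]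

theorem dyada_P_P_disj {A B : List Bool} (hAB : Disjoint (cell A) (cell B)) (f : L) :
    P A (P B f) = 0 := by
  apply Lp.ext
  filter_upwards [P_coe A (P B f), P_coe B f, Lp.coeFn_zero ℝ 1 mu0] with x h1 h2 h3
  rw [h1, h3, Pi.zero_apply]
  by_cases hx : x ∈ cell A
  · rw [Set.indicator_of_mem hx, h2, Set.indicator_of_notMem (Set.disjoint_left.1 hAB hx)]
  · rw [Set.indicator_of_notMem hx]

theorem dyada_cell_disj_not (A : List Bool) (b : Bool) :
    Disjoint (cell (b :: A)) (cell ((!b) :: A)) := by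
  cases b
  · exact cell_disj A
  · exact (cell_disj A).symm

theorem dyada_cell_disj_ne : ∀ {B B' : List Bool}, B.length = B'.length → B ≠ B' →
    Disjoint (cell B) (cell B')
  | [], [], _, hne => absurd rfl hne
  | [], _ :: _, hl, _ => by simp at hl
  | _ :: _, [], hl, _ => by simp at hl
  | b :: B, b' :: B', hl, hne => by
    by_cases hB : B = B'
    · subst hB
      have hb : b' = !b := by
        cases b <;> cases b' <;> simp_all
      rw [hb]
      exact dyada_cell_disj_not B b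
    · exact (dyada_cell_disj_ne (by simpa using hl) hB).mono (dyada_cell_cons _ _)
        (dyada_cell_cons _ _)

theorem dyada_norm_eq (f : L) : ‖f‖ = ∫ x, |f x| ∂mu0 := by
  rw [L1.norm_eq_integral_norm]; rfl

theorem dyada_I_mono {f g : L} (hfg : f ≤ g) : I f ≤ I g := by
  rw [I_eq, I_eq]
  exact integral_mono_ae (L1.integrable_coeFn f) (L1.integrable_coeFn g) ((Lp.coeFn_le f g).2 hfg)

theorem dyada_I_abs (f : L) : I |f| = ‖f‖ := by
  rw [I_eq, dyada_norm_eq]
  exact integral_congr_ae (Lp.coeFn_abs f)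

theorem P_nil (f : L) : P [] f = f := by
  apply Lp.ext
  filter_upwards [P_coe [] f, dyada_ae_mem] with x h1 h2
  rw [h1, dyada_cell_nil, Set.indicator_of_mem h2]

theorem P_add (A : List Bool) (f : L) : P A f = P (false :: A) f + P (true :: A) f := by
  apply Lp.ext
  filter_upwards [P_coe A f, P_coe (false :: A) f, P_coe (true :: A) f,
    Lp.coeFn_add (P (false :: A) f) (P (true :: A) f)] with x h1 h2 h3 h4
  rw [h4, Pi.add_apply, h1, h2, h3, ← cell_union A, Set.indicator_union_of_disjoint (cell_disj A)]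

theorem norm_P_add (A : List Bool) (f : L) :
    ‖P A f‖ = ‖P (false :: A) f‖ + ‖P (true :: A) f‖ := by
  rw [← dyada_I_abs, ← dyada_I_abs, ← dyada_I_abs, ← map_add]
  congr 1
  apply Lp.ext
  filter_upwards [P_coe A f, P_coe (false :: A) f, P_coe (true :: A) f,
    Lp.coeFn_add |P (false :: A) f| |P (true :: A) f|, Lp.coeFn_abs (P A f),
    Lp.coeFn_abs (P (false :: A) f), Lp.coeFn_abs (P (true :: A) f)] with x h1 h2 h3 h4 h5 h6 h7
  rw [h4, Pi.add_apply, h5, h6, h7, h1, h2, h3, ← cell_union A,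
    Set.indicator_union_of_disjoint (cell_disj A)]
  by_cases hx : x ∈ cell (false :: A)
  · simp only [Set.indicator_of_notMem (Set.disjoint_left.1 (cell_disj A) hx), add_zero, abs_zero]
  · simp only [Set.indicator_of_notMem hx, zero_add, abs_zero]

theorem P_P_append (C A : List Bool) (f : L) : P (C ++ A) (P A f) = P (C ++ A) f := by
  exact dyada_P_P_sub (cell_append C A) f

theorem P_P_append' (C A : List Bool) (f : L) : P A (P (C ++ A) f) = P (C ++ A) f := by
  exact dyada_P_P_sub' (cell_append C A) f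

theorem P_P_disj (C D A : List Bool) (b : Bool) (f : L) :
    P (C ++ b :: A) (P (D ++ (!b) :: A) f) = 0 := by
  exact dyada_P_P_disj
    ((dyada_cell_disj_not A b).mono (cell_append C _) (cell_append D _)) f

/-- two different nodes of the same depth are disjoint -/
theorem P_P_ne {B B' : List Bool} (hl : B.length = B'.length) (hne : B ≠ B') (f : L) :
    P B (P B' f) = 0 := by
  exact dyada_P_P_disj (dyada_cell_disj_ne hl hne) f

theorem P_nonneg (A : List Bool) {f : L} (hf : 0 ≤ f) : 0 ≤ P A f := by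
  rw [← Lp.coeFn_nonneg] at hf ⊢
  filter_upwards [P_coe A f, hf] with x h1 h2
  rw [h1]
  by_cases hx : x ∈ cell A
  · rw [Set.indicator_of_mem hx]; exact h2
  · rw [Set.indicator_of_notMem hx]; exact le_rfl

theorem I_eq_norm {f : L} (hf : 0 ≤ f) : I f = ‖f‖ := by
  rw [← dyada_I_abs, abs_of_nonneg hf]

theorem abs_I_le (f : L) : |I f| ≤ ‖f‖ := by
  rw [I_eq, dyada_norm_eq]
  exact abs_integral_le_integral_abs

theorem norm_add_of_nonneg {f g : L} (hf : 0 ≤ f) (hg : 0 ≤ g) : ‖f + g‖ = ‖f‖ + ‖g‖ := by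
  rw [← I_eq_norm hf, ← I_eq_norm hg, ← I_eq_norm (add_nonneg hf hg), map_add]

theorem one_nonneg : (0 : L) ≤ one := by
  rw [← Lp.coeFn_nonneg]
  filter_upwards [one_coe] with x h1
  rw [h1]
  exact zero_le_one

theorem norm_one : ‖(one : L)‖ = 1 := by
  rw [← I_eq_norm one_nonneg, I_eq, integral_congr_ae one_coe]
  simp [mu0]

theorem dyada_P_one_coe (B : List Bool) :
    P B one =ᵐ[mu0] (cell B).indicator (fun _ => (1:ℝ)) := by
  filter_upwards [P_coe B one, one_coe] with x h1 h2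
  rw [h1]
  by_cases hx : x ∈ cell B
  · rw [Set.indicator_of_mem hx, Set.indicator_of_mem hx, h2]
  · rw [Set.indicator_of_notMem hx, Set.indicator_of_notMem hx]

theorem ms_one (B : List Bool) : ms B one = wt B := by
  rw [ms_def, I_eq, integral_congr_ae (dyada_P_one_coe B), integral_indicator (cell_meas B),
    Measure.restrict_restrict (cell_meas B),
    Set.inter_eq_left.2 ((cell_subset B).trans Set.Ico_subset_Icc_self)]
  simp [cell, (wt_pos B).le]

theorem abs_ms_le (B : List Bool) (f : L) : |ms B f| ≤ ‖P B f‖ := by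
  exact abs_I_le _

theorem ms_add (A : List Bool) (f : L) : ms A f = ms (false :: A) f + ms (true :: A) f := by
  rw [ms_def, ms_def, ms_def, P_add A f, map_add]

theorem ms_nil {f : L} (hf : 0 ≤ f) : ms [] f = ‖f‖ := by
  rw [ms_def, P_nil, I_eq_norm hf]

theorem ms_eq_norm (A : List Bool) {f : L} (hf : 0 ≤ f) : ms A f = ‖P A f‖ := by
  rw [ms_def, I_eq_norm (P_nonneg A hf)]

theorem addi_ms {f : L} (hf : 0 ≤ f) : Addi (fun A => ms A f) := by
  refine ⟨fun A => ?_, fun A => ms_add A f⟩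
  rw [ms_eq_norm A hf]
  exact norm_nonneg _

theorem ms_mono (A : List Bool) {f g : L} (hfg : f ≤ g) : ms A f ≤ ms A g := by
  have h1 := (addi_ms (sub_nonneg.2 hfg)).nn A
  rw [map_sub] at h1
  linarith

theorem ms_le_wt (A : List Bool) {f : L} (hf : f ≤ one) : ms A f ≤ wt A := by
  rw [← ms_one]
  exact ms_mono A hf

theorem sum_norm_P (N : ℕ) (A : List Bool) (f : L) :
    ∑ C ∈ lev N, ‖P (C ++ A) f‖ = ‖P A f‖ := by
  exact sum_desc (φ := fun B => ‖P B f‖) (fun B => norm_P_add B f) N A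

theorem sum_abs_ms_le (N : ℕ) (f : L) : ∑ B ∈ lev N, |ms B f| ≤ ‖f‖ := by
  have h1 := sum_lev_eq (φ := fun B => ‖P B f‖) (fun B => norm_P_add B f) N
  rw [P_nil] at h1
  rw [← h1]
  exact Finset.sum_le_sum fun B _ => abs_ms_le B f

theorem h_nil : h [] = one := by
  rw [h, P_nil, wt_nil, inv_one, one_smul]

theorem dyada_smul_nonneg {a : ℝ} (ha : 0 ≤ a) {f : L} (hf : 0 ≤ f) : 0 ≤ a • f := by
  rw [← Lp.coeFn_nonneg] at hf ⊢
  filter_upwards [Lp.coeFn_smul a f, hf] with x h1 h2
  rw [h1]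
  exact mul_nonneg ha h2

theorem dyada_P_le (B : List Bool) {f : L} (hf : 0 ≤ f) : P B f ≤ f := by
  rw [← Lp.coeFn_nonneg] at hf
  rw [← Lp.coeFn_le]
  filter_upwards [P_coe B f, hf] with x h1 h2
  rw [h1]
  by_cases hx : x ∈ cell B
  · rw [Set.indicator_of_mem hx]
  · rw [Set.indicator_of_notMem hx]; exact h2

theorem dyada_ms_h (B C : List Bool) : ms B (h C) = (wt C)⁻¹ * I (P B (P C one)) := by
  rw [h, map_smul, ms_def, smul_eq_mul]

theorem h_nonneg (B : List Bool) : 0 ≤ h B := by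
  exact dyada_smul_nonneg (inv_nonneg.2 (wt_pos B).le) (P_nonneg B one_nonneg)

theorem norm_h (B : List Bool) : ‖h B‖ = 1 := by
  rw [h, norm_smul, ← ms_eq_norm B one_nonneg, ms_one, Real.norm_eq_abs,
    abs_of_pos (inv_pos.2 (wt_pos B)), inv_mul_cancel₀ (wt_pos B).ne']

theorem h_split (B : List Bool) : h B = (1 / 2 : ℝ) • (h (false :: B) + h (true :: B)) := by
  have hw := (wt_pos B).ne'
  rw [h, h, h, wt_cons, wt_cons, ← smul_add, smul_smul, ← P_add]
  congr 1
  field_simp

theorem ms_h_append (C A : List Bool) : ms (C ++ A) (h A) = wt C := by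
  have hw := (wt_pos A).ne'
  rw [dyada_ms_h, P_P_append, ← ms_def, ms_one, wt_append]
  field_simp

theorem ms_h_append' (C A : List Bool) : ms A (h (C ++ A)) = 1 := by
  rw [dyada_ms_h, P_P_append', ← ms_def, ms_one, inv_mul_cancel₀ (wt_pos _).ne']

theorem ms_h_self (A : List Bool) : ms A (h A) = 1 := by
  exact ms_h_append' [] A

theorem ms_h_disj (C D A : List Bool) (b : Bool) : ms (C ++ b :: A) (h (D ++ (!b) :: A)) = 0 := by
  rw [dyada_ms_h, P_P_disj, map_zero, mul_zero]

theorem ms_h_ne {B B' : List Bool} (hl : B.length = B'.length) (hne : B ≠ B') :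
    ms B (h B') = 0 := by
  rw [dyada_ms_h, P_P_ne hl hne, map_zero, mul_zero]

theorem dyada_h_le (C : List Bool) : h C ≤ (wt C)⁻¹ • (one : L) := by
  rw [h, ← sub_nonneg, ← smul_sub]
  exact dyada_smul_nonneg (inv_nonneg.2 (wt_pos C).le) (sub_nonneg.2 (dyada_P_le C one_nonneg))

theorem abs_ms_h_le (B C : List Bool) : |ms B (h C)| ≤ wt B / wt C := by
  have h1 := (addi_ms (h_nonneg C)).nn B
  have h2 := ms_mono B (dyada_h_le C)
  rw [map_smul, ms_one, smul_eq_mul] at h2
  rw [abs_of_nonneg h1, div_eq_inv_mul]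
  exact h2

theorem h_le (C : List Bool) : h C ≤ (wt C)⁻¹ • (one : L) := by
  exact dyada_h_le C

/-- pointwise: `min a κ ≤ min (F x) κ + |F x - a|` on the cell, `a = ms B F / wt B` -/
theorem min_ms_le (B : List Bool) (F : L) (κ : ℝ) :
    min (ms B F) (κ * wt B) ≤ ms B (F ⊓ κ • one) + ‖P B F - ms B F • h B‖ := by
  have hw := wt_pos B
  obtain ⟨a, ha⟩ : ∃ a, ms B F = a * wt B := ⟨ms B F / wt B, by field_simp⟩
  have e1 : min (ms B F) (κ * wt B) = I (min a κ • P B one) := by
    rw [map_smul, ← ms_def, ms_one, smul_eq_mul, ha, min_mul_of_nonneg _ _ hw.le]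
  have e2 : ms B F • h B = a • P B one := by
    rw [h, smul_smul, ha, mul_assoc, mul_inv_cancel₀ hw.ne', mul_one]
  rw [e1, e2, ← dyada_I_abs, ms_def, ← map_add]
  apply dyada_I_mono
  rw [← Lp.coeFn_le]
  filter_upwards [Lp.coeFn_smul (min a κ) (P B one), dyada_P_one_coe B,
    Lp.coeFn_add (P B (F ⊓ κ • one)) |P B F - a • P B one|, P_coe B (F ⊓ κ • one),
    Lp.coeFn_abs (P B F - a • P B one), Lp.coeFn_sub (P B F) (a • P B one), P_coe B F,
    Lp.coeFn_smul a (P B one), Lp.coeFn_inf F (κ • one), Lp.coeFn_smul κ one, one_coe]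
    with x h1 h2 h3 h4 h5 h6 h7 h8 h9 h10 h11
  rw [h1, h3, Pi.add_apply, h4, h5, h6, Pi.sub_apply, h7, h8, Pi.smul_apply, Pi.smul_apply, h2]
  by_cases hx : x ∈ cell B
  · simp only [Set.indicator_of_mem hx, smul_eq_mul, mul_one]
    rw [h9, Pi.inf_apply, h10, Pi.smul_apply, h11, smul_eq_mul, mul_one]
    have k1 := le_abs_self (F x - a)
    have k2 := neg_abs_le (F x - a)
    have k3 := min_le_left a κ
    have k4 := min_le_right a κ
    have k5 := abs_nonneg (F x - a)
    rcases le_total (F x) κ with k | k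
    · rw [min_eq_left k]; linarith
    · rw [min_eq_right k]; linarith
  · simp [Set.indicator_of_notMem hx]

end

end Pool.Agent.MP_fc1aea_an.H30

namespace Pool.Agent.MP_fc1aea_an.H30
open Filter Topology MeasureTheory

noncomputable section

theorem dyadb_os_le (B : List Bool) (f : L) : ‖P B f - ms B f • h B‖ ≤ 2 * ‖P B f‖ := by
  have h1 := norm_sub_le (P B f) (ms B f • h B)
  rw [norm_smul, norm_h, Real.norm_eq_abs, mul_one] at h1
  have h2 := abs_ms_le B f
  linarith

theorem dyadb_os_add (B : List Bool) (f g : L) :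
    P B f - ms B f • h B = (P B (f - g) - ms B (f - g) • h B) + (P B g - ms B g • h B) := by
  rw [map_sub, map_sub, sub_smul]
  abel

theorem dyadb_os_one (B : List Bool) (a : ℝ) :
    P B (a • one) - ms B (a • one) • h B = 0 := by
  have hw := (wt_pos B).ne'
  rw [map_smul, map_smul, ms_one, h, smul_smul, smul_eq_mul, mul_assoc, mul_inv_cancel₀ hw,
    mul_one, sub_self]

theorem dyadb_os_cont (B : List Bool) (g : L) (G : ℝ → ℝ) (hg : g =ᵐ[mu0] G) {ε : ℝ}
    (hε : 0 ≤ ε) (hG : ∀ x ∈ cell B, |G x - G (lo B)| ≤ ε) :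
    ‖P B g - ms B g • h B‖ ≤ 2 * ε * wt B := by
  rw [dyadb_os_add B g (G (lo B) • one), dyadb_os_one, add_zero]
  have h1 := dyadb_os_le B (g - G (lo B) • one)
  have h2 : ‖P B (g - G (lo B) • one)‖ ≤ ‖ε • P B one‖ := by
    apply Lp.norm_le_norm_of_ae_le
    filter_upwards [P_coe B (g - G (lo B) • one), Lp.coeFn_smul ε (P B one), P_coe B one,
      Lp.coeFn_sub g (G (lo B) • one), Lp.coeFn_smul (G (lo B)) one, one_coe, hg]
      with x e1 e2 e3 e4 e5 e6 e7
    rw [e1, e2, Pi.smul_apply, e3]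
    by_cases hx : x ∈ cell B
    · rw [Set.indicator_of_mem hx, Set.indicator_of_mem hx, e4, Pi.sub_apply, e5, Pi.smul_apply,
        e6, e7]
      simpa [abs_of_nonneg hε] using hG x hx
    · simp [Set.indicator_of_notMem hx]
  rw [norm_smul, ← ms_eq_norm B one_nonneg, ms_one, Real.norm_eq_abs, abs_of_nonneg hε] at h2
  linarith

theorem dyadb_dense (f : L) {ε : ℝ} (hε : 0 < ε) :
    ∃ (g : L) (G : BoundedContinuousFunction ℝ ℝ), g =ᵐ[mu0] G ∧ ‖f - g‖ < ε := by
  have h1 := BoundedContinuousFunction.toLp_denseRange ℝ mu0 ℝ (p := 1) (by simp)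
  obtain ⟨G, hG⟩ := h1.exists_dist_lt f hε
  exact ⟨_, G, BoundedContinuousFunction.coeFn_toLp 1 mu0 ℝ G, by rwa [← dist_eq_norm]⟩

/-- Density of dyadic step functions.  Plan: `osc n f ≤ 2 ‖f - g‖ + osc n g` (`sum_norm_P`,
`abs_ms_le`, `norm_h`), and for `g` continuous (`Integrable.exists_boundedContinuous_integral_sub_le`),
hence uniformly continuous on `[0,1]`, each term is at most `ε * wt B` once `2^(-n) < δ`. -/
theorem osc_tendsto (f : L) :
    Tendsto (fun n => ∑ B ∈ lev n, ‖P B f - ms B f • h B‖) atTop (𝓝 0) := by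
  rw [Metric.tendsto_atTop]
  intro ε hε
  obtain ⟨g, G, hg, hfg⟩ := dyadb_dense f (ε := ε / 4) (by positivity)
  have hu : UniformContinuousOn G (Set.Icc (0:ℝ) 1) :=
    isCompact_Icc.uniformContinuousOn_of_continuous G.continuous.continuousOn
  obtain ⟨δ, hδ, hδ'⟩ := Metric.uniformContinuousOn_iff.1 hu (ε / 4) (by positivity)
  obtain ⟨N, hN⟩ := exists_pow_lt_of_lt_one hδ (show (1 / 2 : ℝ) < 1 by norm_num)
  refine ⟨N, fun n hn => ?_⟩
  rw [Real.dist_eq, sub_zero, abs_of_nonneg (Finset.sum_nonneg fun _ _ => norm_nonneg _)]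
  have h1 : ∀ B ∈ lev n, ‖P B f - ms B f • h B‖ ≤ 2 * ‖P B (f - g)‖ + 2 * (ε / 4) * wt B := by
    intro B hB
    rw [dyadb_os_add B f g]
    refine (norm_add_le _ _).trans (add_le_add (dyadb_os_le _ _) ?_)
    refine dyadb_os_cont B g G hg (by positivity) fun x hx => ?_
    have hl : lo B ∈ cell B := ⟨le_rfl, lt_add_of_pos_right _ (wt_pos B)⟩
    have hw : wt B ≤ (1 / 2) ^ N := by
      rw [wt_of_mem hB]
      exact pow_le_pow_of_le_one (by norm_num) (by norm_num) hn
    have h2 := hδ' x (Set.Ico_subset_Icc_self (cell_subset B hx)) (lo B)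
      (Set.Ico_subset_Icc_self (cell_subset B hl)) (by
        rw [Real.dist_eq, abs_of_nonneg (sub_nonneg.2 hx.1)]
        have := hx.2
        linarith)
    rw [Real.dist_eq] at h2
    exact h2.le
  have h2 := Finset.sum_le_sum h1
  have h3 := sum_norm_P n [] (f - g)
  simp only [List.append_nil, P_nil] at h3
  rw [Finset.sum_add_distrib, ← Finset.mul_sum, ← Finset.mul_sum, h3, sum_wt] at h2
  linarith

/-- Plan: `P A f = ∑ C, P (C ++ A) f` (`sum_desc`), and the sum of the oscillations below `A` is at most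
the full sum at depth `A.length + N` (`sum_lev_add`, `Finset.single_le_sum`). -/
theorem step_tendsto (A : List Bool) (f : L) :
    Tendsto (fun N => ∑ C ∈ lev N, ms (C ++ A) f • h (C ++ A)) atTop (𝓝 (P A f)) := by
  rw [tendsto_iff_norm_sub_tendsto_zero]
  have h1 := (osc_tendsto f).comp (tendsto_add_atTop_nat A.length)
  refine squeeze_zero (fun _ => norm_nonneg _) (fun N => ?_) h1
  rw [norm_sub_rev, ← sum_desc (φ := fun B => P B f) (fun B => P_add B f) N A,
    ← Finset.sum_sub_distrib]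
  refine (norm_sum_le _ _).trans ?_
  simp only [Function.comp]
  rw [add_comm N, sum_lev_add]
  exact Finset.single_le_sum
    (f := fun A' => ∑ C ∈ lev N, ‖P (C ++ A') f - ms (C ++ A') f • h (C ++ A')‖)
    (fun _ _ => Finset.sum_nonneg fun _ _ => norm_nonneg _) (mem_lev.2 rfl)

variable {Y : Type*} [NormedAddCommGroup Y] [NormedSpace ℝ Y]

theorem clm_ext {T T' : L →L[ℝ] Y} (hT : ∀ B, T (h B) = T' (h B)) : T = T' := by
  ext f
  have h1 := step_tendsto [] f
  rw [P_nil] at h1
  have h2 := (T.continuous.tendsto f).comp h1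
  have h3 := (T'.continuous.tendsto f).comp h1
  refine tendsto_nhds_unique h2 (h3.congr fun N => ?_)
  simp only [Function.comp, map_sum, map_smul, hT]

theorem dyadb_osc_h (B : List Bool) :
    ∑ A ∈ lev B.length, ‖P A (h B) - ms A (h B) • h A‖ = 0 := by
  refine Finset.sum_eq_zero fun A hA => ?_
  rw [norm_eq_zero]
  by_cases hAB : A = B
  · subst hAB
    have h1 := P_P_append [] A one
    rw [List.nil_append] at h1
    rw [ms_h_self, one_smul, h, map_smul, h1, sub_self]
  · have hl := mem_lev.1 hA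
    rw [ms_h_ne hl hAB, zero_smul, sub_zero, h, map_smul, P_P_ne hl hAB, smul_zero]

theorem dyadb_desc (y : List Bool → Y)
    (hy : ∀ B, y B = (1 / 2 : ℝ) • (y (false :: B) + y (true :: B))) (N : ℕ) (B : List Bool) :
    ∑ C ∈ lev N, wt C • y (C ++ B) = y B := by
  induction N with
  | zero => simp
  | succ N ih =>
    rw [sum_lev_succ, ← ih]
    refine Finset.sum_congr rfl fun C _ => ?_
    rw [hy (C ++ B), wt_cons, wt_cons, smul_smul, smul_add, List.cons_append, List.cons_append,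
      mul_one_div]

theorem dyadb_cauchy (y : List Bool → Y) (K : ℝ) (hK : ∀ B, ‖y B‖ ≤ K)
    (hy : ∀ B, y B = (1 / 2 : ℝ) • (y (false :: B) + y (true :: B))) (f : L) {n m : ℕ}
    (hnm : n ≤ m) :
    dist (∑ B ∈ lev n, ms B f • y B) (∑ B ∈ lev m, ms B f • y B) ≤
      K * ∑ B ∈ lev n, ‖P B f - ms B f • h B‖ := by
  have hK0 : 0 ≤ K := (norm_nonneg _).trans (hK [])
  obtain ⟨N, rfl⟩ := Nat.exists_eq_add_of_le hnm
  rw [dist_comm, dist_eq_norm, sum_lev_add, ← Finset.sum_sub_distrib, Finset.mul_sum]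
  refine (norm_sum_le _ _).trans (Finset.sum_le_sum fun B _ => ?_)
  have h1 : ∑ C ∈ lev N, ms (C ++ B) f • y (C ++ B) - ms B f • y B =
      ∑ C ∈ lev N, ms (C ++ B) (P B f - ms B f • h B) • y (C ++ B) := by
    rw [← dyadb_desc y hy N B, Finset.smul_sum, ← Finset.sum_sub_distrib]
    refine Finset.sum_congr rfl fun C _ => ?_
    rw [map_sub, map_smul, ms_h_append, ms_def (C ++ B) (P B f), P_P_append, ← ms_def, sub_smul,
      smul_smul, smul_eq_mul]
  rw [h1]
  calc ‖∑ C ∈ lev N, ms (C ++ B) (P B f - ms B f • h B) • y (C ++ B)‖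
      ≤ ∑ C ∈ lev N, K * ‖P (C ++ B) (P B f - ms B f • h B)‖ := by
        refine (norm_sum_le _ _).trans (Finset.sum_le_sum fun C _ => ?_)
        rw [norm_smul, Real.norm_eq_abs, mul_comm]
        exact mul_le_mul (hK _) (abs_ms_le _ _) (abs_nonneg _) hK0
    _ = K * ‖P B (P B f - ms B f • h B)‖ := by rw [← Finset.mul_sum, sum_norm_P]
    _ ≤ _ := mul_le_mul_of_nonneg_left (P_norm_le _ _) hK0

/-- Universal property.  Plan: `T n f = ∑ B ∈ lev n, ms B f • y B`; `y B = ∑ C ∈ lev N, wt C • y (C ++ B)`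
(`sum_desc` for `wt B • y B`); `‖T (n+N) f - T n f‖ ≤ K * osc n f` because
`ms (C ++ B) f - ms B f * wt C = ms (C ++ B) (P B f - ms B f • h B)`.  The pointwise limit is linear and
bounded by `K`; `T n (h B) = y B` for `n ≥ B.length`
(`osc n (h B) = 0` at `n = B.length` by `ms_h_self`, `ms_h_ne`, `P_P_ne`). -/
theorem exists_ext [CompleteSpace Y] (y : List Bool → Y) (K : ℝ) (hK : ∀ B, ‖y B‖ ≤ K)
    (hy : ∀ B, y B = (1 / 2 : ℝ) • (y (false :: B) + y (true :: B))) :
    ∃ T : L →L[ℝ] Y, (∀ B, T (h B) = y B) ∧ ∀ f, ‖T f‖ ≤ K * ‖f‖ := by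
  have hK0 : 0 ≤ K := (norm_nonneg _).trans (hK [])
  have hc : ∀ f : L, ∃ z, Tendsto (fun n => ∑ B ∈ lev n, ms B f • y B) atTop (𝓝 z) := by
    intro f
    refine cauchySeq_tendsto_of_complete (cauchySeq_of_le_tendsto_0'
      (fun n => K * ∑ B ∈ lev n, ‖P B f - ms B f • h B‖)
      (fun n m hnm => dyadb_cauchy y K hK hy f hnm) ?_)
    simpa using (osc_tendsto f).const_mul K
  choose T hT using hc
  have hadd : ∀ f g, T (f + g) = T f + T g := by
    intro f g
    refine tendsto_nhds_unique (hT (f + g)) (((hT f).add (hT g)).congr fun n => ?_)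
    simp only [map_add, add_smul, Finset.sum_add_distrib]
  have hsmul : ∀ (a : ℝ) f, T (a • f) = a • T f := by
    intro a f
    refine tendsto_nhds_unique (hT (a • f)) (((hT f).const_smul a).congr fun n => ?_)
    simp only [map_smul, Finset.smul_sum, smul_smul, smul_eq_mul]
  have hb : ∀ f, ‖T f‖ ≤ K * ‖f‖ := by
    intro f
    refine le_of_tendsto' (hT f).norm fun n => ?_
    calc ‖∑ B ∈ lev n, ms B f • y B‖ ≤ ∑ B ∈ lev n, K * |ms B f| := by
          refine (norm_sum_le _ _).trans (Finset.sum_le_sum fun B _ => ?_)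
          rw [norm_smul, Real.norm_eq_abs, mul_comm]
          exact mul_le_mul_of_nonneg_right (hK B) (abs_nonneg _)
      _ ≤ K * ‖f‖ := by
          rw [← Finset.mul_sum]
          exact mul_le_mul_of_nonneg_left (sum_abs_ms_le n f) hK0
  refine ⟨LinearMap.mkContinuous { toFun := T, map_add' := hadd, map_smul' := hsmul } K hb,
    fun B => ?_, hb⟩
  show T (h B) = y B
  have h1 : ∑ A ∈ lev B.length, ms A (h B) • y A = y B := by
    rw [Finset.sum_eq_single B, ms_h_self, one_smul]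
    · intro A hA hAB
      rw [ms_h_ne (mem_lev.1 hA) hAB, zero_smul]
    · intro hB
      exact absurd (mem_lev.2 rfl) hB
  refine tendsto_nhds_unique (hT (h B)) (tendsto_const_nhds.congr' ?_)
  filter_upwards [eventually_ge_atTop B.length] with m hm
  have h2 := dyadb_cauchy y K hK hy (h B) hm
  rw [dyadb_osc_h, mul_zero, h1] at h2
  exact dist_le_zero.1 h2

/-- Plan: `f ⊓ M - g ⊓ M` has norm at most `‖f - g‖`, and a step function `g` (`step_tendsto []`) satisfies
`g ≤ M • one` for large `M` (`h_le`), or dominated convergence. -/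
theorem inf_tendsto (f : L) {η : ℝ} (hη : 0 < η) :
    Tendsto (fun k : ℕ => f ⊓ (η * 2 ^ k) • (one : L)) atTop (𝓝 f) := by
  rw [Metric.tendsto_atTop]
  intro ε hε
  obtain ⟨g, G, hg, hfg⟩ := dyadb_dense f (ε := ε / 2) (by positivity)
  obtain ⟨N, hN⟩ := pow_unbounded_of_one_lt (‖G‖ / η) (show (1 : ℝ) < 2 by norm_num)
  refine ⟨N, fun k hk => ?_⟩
  have h1 : ‖G‖ ≤ η * 2 ^ k := by
    have h2 : (2 : ℝ) ^ N ≤ 2 ^ k := pow_le_pow_right₀ (by norm_num) hk
    rw [div_lt_iff₀ hη] at hN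
    nlinarith
  have h2 : g ≤ (η * 2 ^ k) • (one : L) := by
    rw [← Lp.coeFn_le]
    filter_upwards [hg, Lp.coeFn_smul (η * 2 ^ k) one, one_coe] with x e1 e2 e3
    rw [e1, e2, Pi.smul_apply, e3, smul_eq_mul, mul_one]
    exact ((le_abs_self _).trans (G.norm_coe_le_norm x)).trans h1
  have h3 := norm_inf_sub_inf_le_norm f g ((η * 2 ^ k) • (one : L))
  rw [inf_eq_left.2 h2] at h3
  have h4 := dist_triangle (f ⊓ (η * 2 ^ k) • (one : L)) g f
  rw [dist_eq_norm _ g, dist_comm g f, dist_eq_norm f g] at h4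
  linarith

/-- consequence of `min_ms_le` and `osc_tendsto` -/
theorem low_le {F : L} (hF : 0 ≤ F) {κ : ℝ} (hκ : 0 ≤ κ) :
    ∀ η > 0, ∀ᶠ N in atTop, ∑ B ∈ lev N, min (ms B F) (κ * wt B) ≤ ‖F ⊓ κ • one‖ + η := by
  intro η hη
  have h0 : (0 : L) ≤ F ⊓ κ • one := by
    refine le_inf hF ?_
    rw [← Lp.coeFn_nonneg]
    filter_upwards [Lp.coeFn_smul κ one, one_coe] with x e2 e3
    rw [e2, Pi.smul_apply, e3, smul_eq_mul, mul_one]
    exact hκ
  filter_upwards [(osc_tendsto F).eventually (ge_mem_nhds hη)] with N hN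
  have h1 := Finset.sum_le_sum fun B (_ : B ∈ lev N) => min_ms_le B F κ
  rw [Finset.sum_add_distrib,
    sum_lev_eq (φ := fun B => ms B (F ⊓ κ • one)) (fun B => ms_add B _) N, ms_nil h0] at h1
  linarith

end

end Pool.Agent.MP_fc1aea_an.H30

namespace Pool.Agent.MP_fc1aea_an.H30
open Filter Topology MeasureTheory

noncomputable section

def lamF (f : L) (x : ℝ) : ℝ := ∫ s in Set.Iic x, f s ∂mu0

theorem lamF_add (f g : L) (x : ℝ) : lamF (f + g) x = lamF f x + lamF g x := by
  unfold lamF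
  rw [← integral_add (L1.integrable_coeFn f).integrableOn (L1.integrable_coeFn g).integrableOn]
  exact integral_congr_ae (ae_restrict_of_ae (Lp.coeFn_add f g))

theorem lamF_abs (f : L) (x : ℝ) : |lamF f x| ≤ ‖f‖ := by
  unfold lamF
  rw [L1.norm_eq_integral_norm, ← Real.norm_eq_abs]
  exact (norm_integral_le_integral_norm _).trans (setIntegral_le_integral
    (L1.integrable_coeFn f).norm (Eventually.of_forall fun _ => norm_nonneg _))

theorem lamF_nonneg {f : L} (hf : 0 ≤ f) (x : ℝ) : 0 ≤ lamF f x :=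
  integral_nonneg_of_ae (ae_restrict_of_ae ((Lp.coeFn_nonneg f).2 hf))

theorem lamF_mono {f : L} (hf : 0 ≤ f) : Monotone (lamF f) := fun _ _ h =>
  setIntegral_mono_set (L1.integrable_coeFn f).integrableOn
    (ae_restrict_of_ae ((Lp.coeFn_nonneg f).2 hf)) (Set.Iic_subset_Iic.2 h).eventuallyLE

theorem lamF_deriv (f : L) : ∀ᵐ x ∂mu0, deriv (lamF f) x = f x := by
  have hi : Integrable ((Set.Icc (0:ℝ) 1).indicator f) volume :=
    (integrable_indicator_iff measurableSet_Icc).2 (L1.integrable_coeFn f)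
  have e : lamF f = fun x => lamF f 0 + ∫ t in (0:ℝ)..x, (Set.Icc (0:ℝ) 1).indicator f t := by
    have e1 : ∀ x, lamF f x = ∫ t in Set.Iic x, (Set.Icc (0:ℝ) 1).indicator f t := by
      intro x
      unfold lamF
      rw [setIntegral_indicator measurableSet_Icc, Measure.restrict_restrict measurableSet_Iic]
    funext x
    rw [← intervalIntegral.integral_Iic_sub_Iic hi.integrableOn hi.integrableOn, e1, e1]
    ring
  filter_upwards [ae_restrict_of_ae (LocallyIntegrable.ae_hasDerivAt_integral hi.locallyIntegrable),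
    ae_restrict_mem measurableSet_Icc] with x hx hx'
  rw [e, ((hx 0).const_add _).deriv, Set.indicator_of_mem hx']

def lamG (u : ℕ → L) (x : ℝ) : ℝ := limUnder (hyperfilter ℕ) fun n => lamF (u n) x

theorem lamG_tendsto {u : ℕ → L} {C : ℝ} (hu : ∀ n, ‖u n‖ ≤ C) (x : ℝ) :
    Tendsto (fun n => lamF (u n) x) (hyperfilter ℕ) (𝓝 (lamG u x)) := by
  refine tendsto_nhds_limUnder ?_
  obtain ⟨a, -, ha⟩ := (isCompact_Icc (a := -C) (b := C)).ultrafilter_le_nhds
    ((hyperfilter ℕ).map fun n => lamF (u n) x) (by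
      rw [Ultrafilter.coe_map, le_principal_iff, mem_map]
      exact Eventually.of_forall fun n => abs_le.1 ((lamF_abs _ _).trans (hu n)))
  exact ⟨a, ha⟩

theorem lamG_add {u v : ℕ → L} {C D : ℝ} (hu : ∀ n, ‖u n‖ ≤ C) (hv : ∀ n, ‖v n‖ ≤ D) :
    lamG (u + v) = lamG u + lamG v := by
  funext x
  have h := (lamG_tendsto hu x).add (lamG_tendsto hv x)
  have h2 := lamG_tendsto (u := u + v) (C := C + D)
    (fun n => (norm_add_le _ _).trans (add_le_add (hu n) (hv n))) x
  simp only [Pi.add_apply, lamF_add] at h2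
  exact tendsto_nhds_unique h2 h

theorem lamG_pos {u : ℕ → L} {C : ℝ} (hu : ∀ n, ‖u n‖ ≤ C) (h0 : ∀ n, 0 ≤ u n) :
    (∀ᵐ x ∂mu0, DifferentiableAt ℝ (lamG u) x) ∧ Integrable (deriv (lamG u)) mu0 ∧
      ∫ x, ‖deriv (lamG u) x‖ ∂mu0 ≤ C := by
  have hm : Monotone (lamG u) := fun x y h =>
    le_of_tendsto_of_tendsto' (lamG_tendsto hu x) (lamG_tendsto hu y) fun n => lamF_mono (h0 n) h
  have a : 0 ≤ lamG u 0 := ge_of_tendsto' (lamG_tendsto hu 0) fun n => lamF_nonneg (h0 n) 0
  have b : lamG u 1 ≤ C := le_of_tendsto' (lamG_tendsto hu 1) fun n =>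
    (le_abs_self _).trans ((lamF_abs _ _).trans (hu n))
  have c := (hm.monotoneOn (Set.uIcc (0:ℝ) 1)).intervalIntegrable_deriv
  have d := (hm.monotoneOn (Set.uIcc (0:ℝ) 1)).intervalIntegral_deriv_mem_uIcc
  refine ⟨ae_restrict_of_ae hm.ae_differentiableAt,
    (intervalIntegrable_iff_integrableOn_Icc_of_le zero_le_one).1 c, ?_⟩
  rw [Set.uIcc_of_le (by linarith [hm zero_le_one]), intervalIntegral.integral_of_le zero_le_one,
    ← integral_Icc_eq_integral_Ioc] at d
  have e : (fun x => ‖deriv (lamG u) x‖) = deriv (lamG u) := by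
    funext x; exact Real.norm_of_nonneg hm.deriv_nonneg
  rw [e]
  linarith [d.2]

theorem lamG_all {u : ℕ → L} {C : ℝ} (hu : ∀ n, ‖u n‖ ≤ C) :
    (∀ᵐ x ∂mu0, DifferentiableAt ℝ (lamG u) x) ∧ Integrable (deriv (lamG u)) mu0 ∧
      ∫ x, ‖deriv (lamG u) x‖ ∂mu0 ≤ 2 * C := by
  have hp : ∀ n, ‖(u n)⁺‖ ≤ C := fun n => (norm_le_norm_of_abs_le_abs (by
    rw [abs_of_nonneg (posPart_nonneg _), ← posPart_add_negPart]
    exact le_add_of_nonneg_right (negPart_nonneg _))).trans (hu n)
  have hn : ∀ n, ‖(u n)⁻‖ ≤ C := fun n => (norm_le_norm_of_abs_le_abs (by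
    rw [abs_of_nonneg (negPart_nonneg _), ← posPart_add_negPart]
    exact le_add_of_nonneg_left (posPart_nonneg _))).trans (hu n)
  obtain ⟨p1, p2, p3⟩ := lamG_pos hp fun n => posPart_nonneg _
  obtain ⟨n1, n2, n3⟩ := lamG_pos hn fun n => negPart_nonneg _
  have e : lamG u = lamG (fun n => (u n)⁺) - lamG (fun n => (u n)⁻) := by
    have h := lamG_add hu hn
    have h2 : (u + fun n => (u n)⁻) = fun n => (u n)⁺ := by
      funext n
      rw [Pi.add_apply, ← sub_eq_iff_eq_add.1 (posPart_sub_negPart (u n))]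
    rw [h2] at h
    rw [h, add_sub_cancel_right]
  have e2 : deriv (lamG u) =ᵐ[mu0]
      fun x => deriv (lamG fun n => (u n)⁺) x - deriv (lamG fun n => (u n)⁻) x := by
    filter_upwards [p1, n1] with x h1 h2
    rw [e, deriv_sub h1 h2]
  have hi : Integrable (deriv (lamG u)) mu0 := (p2.sub n2).congr e2.symm
  refine ⟨?_, hi, ?_⟩
  · filter_upwards [p1, n1] with x h1 h2
    rw [e]; exact h1.sub h2
  · have := integral_mono_ae hi.norm (p2.norm.add n2.norm) (by
      filter_upwards [e2] with x hx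
      rw [hx]; exact norm_sub_le _ _)
    have h3 := integral_add p2.norm n2.norm
    simp only [Pi.add_apply] at this
    linarith

open Classical in
def lamL (u : ℕ → L) : L :=
  if h : Integrable (deriv (lamG u)) mu0 then h.toL1 _ else 0

theorem lamL_coe {u : ℕ → L} (h : Integrable (deriv (lamG u)) mu0) :
    lamL u =ᵐ[mu0] deriv (lamG u) := by
  unfold lamL
  rw [dif_pos h]
  exact h.coeFn_toL1

/-- A generalized limit with values in `L1`: the absolutely continuous part of an ultralimit. -/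
theorem exists_Lam : ∃ Λ : (ℕ → L) → L,
    (∀ (u : ℕ → L) (C : ℝ), (∀ n, ‖u n‖ ≤ C) → ‖Λ u‖ ≤ 4 * C) ∧
    (∀ (u v : ℕ → L) (C : ℝ), (∀ n, ‖u n‖ ≤ C) → (∀ n, ‖v n‖ ≤ C) → Λ (u + v) = Λ u + Λ v) ∧
    (∀ (u : ℕ → L) (v : L), (∀ᶠ n in atTop, u n = v) → Λ u = v) := by
  refine ⟨lamL, fun u C hu => ?_, fun u v C hu hv => ?_, fun u v h => ?_⟩
  · obtain ⟨-, h2, h3⟩ := lamG_all hu
    have hC : 0 ≤ C := (norm_nonneg _).trans (hu 0)
    have : ∫ x, ‖lamL u x‖ ∂mu0 = ∫ x, ‖deriv (lamG u) x‖ ∂mu0 :=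
      integral_congr_ae (by filter_upwards [lamL_coe h2] with x hx; rw [hx])
    rw [L1.norm_eq_integral_norm, this]
    linarith
  · obtain ⟨a1, a2, -⟩ := lamG_all hu
    obtain ⟨b1, b2, -⟩ := lamG_all hv
    obtain ⟨-, c2, -⟩ := lamG_all (u := u + v) (C := C + C)
      fun n => (norm_add_le _ _).trans (add_le_add (hu n) (hv n))
    apply Lp.ext
    filter_upwards [lamL_coe a2, lamL_coe b2, lamL_coe c2, Lp.coeFn_add (lamL u) (lamL v), a1, b1]
      with x h1 h2 h3 h4 h5 h6
    rw [h3, h4, Pi.add_apply, h1, h2, lamG_add hu hv, deriv_add h5 h6]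
  · have e : lamG u = lamF v := by
      funext x
      refine Tendsto.limUnder_eq (tendsto_const_nhds.congr' ?_)
      filter_upwards [Nat.hyperfilter_le_atTop h] with n hn
      rw [hn]
    have h1 := lamF_deriv v
    rw [← e] at h1
    have hi : Integrable (deriv (lamG u)) mu0 :=
      (L1.integrable_coeFn v).congr (EventuallyEq.symm h1)
    exact Lp.ext ((lamL_coe hi).trans h1)

end

end Pool.Agent.MP_fc1aea_an.H30
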