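import Mathlib

/-! Binary tree combinatorics.  Nodes are lists of booleans, the head is the deepest digit,
the children of `A` are `false :: A` and `true :: A`. -/

namespace Pool.Agent.MP_fc1aea_an.H30
open Filter Topology

noncomputable section

/-- nodes of depth `n` -/
def lev : ℕ → Finset (List Bool)
  | 0 => {[]}
  | n + 1 => (lev n).image (List.cons false) ∪ (lev n).image (List.cons true)

/-- measure of a node -/
def wt (B : List Bool) : ℝ := (1 / 2) ^ B.length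

theorem wt_pos (B : List Bool) : 0 < wt B := by unfold wt; positivity

@[simp] theorem wt_nil : wt [] = 1 := by simp [wt]

theorem wt_cons (b : Bool) (B : List Bool) : wt (b :: B) = wt B / 2 := by
  simp only [wt, List.length_cons, pow_succ]; ring

theorem wt_append (C A : List Bool) : wt (C ++ A) = wt C * wt A := by
  simp [wt, pow_add]

theorem wt_le_one (B : List Bool) : wt B ≤ 1 := by
  unfold wt; exact pow_le_one₀ (by norm_num) (by norm_num)

theorem mem_lev {n : ℕ} {B : List Bool} : B ∈ lev n ↔ B.length = n := by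
  induction n generalizing B with
  | zero => simp [lev]
  | succ n ih =>
    cases B with
    | nil => simp [lev]
    | cons b B => cases b <;> simp [lev, ih]

theorem wt_of_mem {n : ℕ} {B : List Bool} (hB : B ∈ lev n) : wt B = (1 / 2) ^ n := by
  rw [wt, mem_lev.1 hB]

variable {M : Type*} [AddCommMonoid M]

@[simp] theorem sum_lev_zero (φ : List Bool → M) : ∑ B ∈ lev 0, φ B = φ [] := by simp [lev]

/-- unfolding at the deepest digit -/
theorem sum_lev_succ (n : ℕ) (φ : List Bool → M) :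
    ∑ B ∈ lev (n + 1), φ B = ∑ B ∈ lev n, (φ (false :: B) + φ (true :: B)) := by
  rw [lev, Finset.sum_union, Finset.sum_image, Finset.sum_image, Finset.sum_add_distrib]
  · intro x _ y _ hxy; simpa using hxy
  · intro x _ y _ hxy; simpa using hxy
  · rw [Finset.disjoint_left]
    intro a ha hb
    simp only [Finset.mem_image] at ha hb
    obtain ⟨x, _, rfl⟩ := ha
    obtain ⟨y, _, hy⟩ := hb
    simp at hy

theorem sum_lev_add (N n : ℕ) (φ : List Bool → M) :
    ∑ B ∈ lev (n + N), φ B = ∑ A ∈ lev n, ∑ C ∈ lev N, φ (C ++ A) := by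
  induction N generalizing φ with
  | zero => simp
  | succ N ih =>
    rw [← add_assoc, sum_lev_succ, ih]
    refine Finset.sum_congr rfl fun A _ => ?_
    rw [sum_lev_succ]; rfl

/-- unfolding at the top digit -/
theorem sum_lev_succ' (N : ℕ) (φ : List Bool → M) (A : List Bool) :
    ∑ C ∈ lev (N + 1), φ (C ++ A) =
      ∑ C ∈ lev N, φ (C ++ false :: A) + ∑ C ∈ lev N, φ (C ++ true :: A) := by
  rw [add_comm N 1, sum_lev_add N 1 (fun C => φ (C ++ A)), sum_lev_succ]
  simp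

theorem card_lev (n : ℕ) : (lev n).card = 2 ^ n := by
  induction n with
  | zero => simp [lev]
  | succ n ih =>
    rw [Finset.card_eq_sum_ones, sum_lev_succ]
    simp [ih, pow_succ]

theorem sum_wt (n : ℕ) : ∑ B ∈ lev n, wt B = 1 := by
  induction n with
  | zero => simp
  | succ n ih => rw [sum_lev_succ, ← ih]; simp [wt_cons]

/-- an additive family is the sum of its values on the descendants of depth `N` -/
theorem sum_desc {φ : List Bool → M} (hφ : ∀ A, φ A = φ (false :: A) + φ (true :: A))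
    (N : ℕ) (A : List Bool) : ∑ C ∈ lev N, φ (C ++ A) = φ A := by
  induction N with
  | zero => simp
  | succ N ih =>
    rw [sum_lev_succ, ← ih]
    exact Finset.sum_congr rfl fun C _ => (hφ (C ++ A)).symm

theorem sum_lev_eq {φ : List Bool → M} (hφ : ∀ A, φ A = φ (false :: A) + φ (true :: A))
    (N : ℕ) : ∑ C ∈ lev N, φ C = φ [] := by
  simpa using sum_desc hφ N []

/-- nonnegative additive masses -/
structure Addi (m : List Bool → ℝ) : Prop where
  nn : ∀ A, 0 ≤ m A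
  add : ∀ A, m A = m (false :: A) + m (true :: A)

/-- hazard rate of the randomized stopping rule -/
def hz (κ c : ℝ) (m : List Bool → ℝ) (A : List Bool) : ℝ :=
  κ * ((m (false :: A) - m (true :: A)) / (m A + c * wt A)) ^ 2

/-- stopping probability at the roots -/
def chi (c : ℝ) (m : List Bool → ℝ) (A : List Bool) : ℝ := m A / (m A + c * wt A)

variable {Y : Type*} [NormedAddCommGroup Y] [NormedSpace ℝ Y]

/-- stopped masses times vectors, `N` levels below `A`, survival probability `s` at `A` -/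
def V (κ c : ℝ) (m : List Bool → ℝ) (y : List Bool → Y) : ℕ → ℝ → List Bool → Y
  | 0, _, _ => 0
  | N + 1, s, A => (s * hz κ c m A * m A) • y A +
      V κ c m y N (s * (1 - hz κ c m A)) (false :: A) +
      V κ c m y N (s * (1 - hz κ c m A)) (true :: A)

/-- unstopped mass -/
def Rm (κ c : ℝ) (m : List Bool → ℝ) : ℕ → ℝ → List Bool → ℝ
  | 0, s, A => s * m A
  | N + 1, s, A => Rm κ c m N (s * (1 - hz κ c m A)) (false :: A) +
      Rm κ c m N (s * (1 - hz κ c m A)) (true :: A)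

def W (κ c : ℝ) (n0 : ℕ) (m : List Bool → ℝ) (y : List Bool → Y) (N : ℕ) : Y :=
  ∑ A ∈ lev n0, ((chi c m A * m A) • y A + V κ c m y N (1 - chi c m A) A)

def psi (κ c : ℝ) (n0 : ℕ) (m : List Bool → ℝ) (y : List Bool → Y) : Y :=
  limUnder atTop (W κ c n0 m y)

theorem hz_nonneg {κ c : ℝ} (hκ : 0 ≤ κ) (m : List Bool → ℝ) (A : List Bool) :
    0 ≤ hz κ c m A := by unfold hz; positivity

theorem hz_le {κ c : ℝ} (hκ : 0 ≤ κ) (hc : 0 < c) {m : List Bool → ℝ} (hm : Addi m)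
    (A : List Bool) : hz κ c m A ≤ κ := by
  have h0 := hm.nn (false :: A)
  have h1 := hm.nn (true :: A)
  have ha := hm.add A
  have hw : 0 < c * wt A := mul_pos hc (wt_pos A)
  have hd : 0 < m A + c * wt A := by linarith
  have : ((m (false :: A) - m (true :: A)) / (m A + c * wt A)) ^ 2 ≤ 1 := by
    rw [div_pow, div_le_one (by positivity)]
    exact sq_le_sq' (by linarith) (by linarith)
  unfold hz; nlinarith

theorem chi_nonneg {c : ℝ} (hc : 0 < c) {m : List Bool → ℝ} (hm : Addi m) (A : List Bool) :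
    0 ≤ chi c m A := by
  have := hm.nn A
  have := mul_pos hc (wt_pos A)
  unfold chi; positivity

theorem chi_le_one {c : ℝ} (hc : 0 < c) {m : List Bool → ℝ} (hm : Addi m) (A : List Bool) :
    chi c m A ≤ 1 := by
  have := hm.nn A
  have := mul_pos hc (wt_pos A)
  unfold chi; rw [div_le_one (by positivity)]; linarith

/-- superadditivity gap of the parallel sum `x y / (x + y)` -/
theorem par_gap {x0 x1 y0 y1 : ℝ} (h0 : 0 < x0 + y0) (h1 : 0 < x1 + y1) :
    x0 * y0 / (x0 + y0) + x1 * y1 / (x1 + y1) +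
      4 * (x0 * y1 - x1 * y0) ^ 2 / (x0 + x1 + (y0 + y1)) ^ 3 ≤
      (x0 + x1) * (y0 + y1) / (x0 + x1 + (y0 + y1)) := by
  have hs : 0 < x0 + x1 + (y0 + y1) := by linarith
  have key : (x0 + x1) * (y0 + y1) / (x0 + x1 + (y0 + y1)) -
      (x0 * y0 / (x0 + y0) + x1 * y1 / (x1 + y1)) =
      (x0 * y1 - x1 * y0) ^ 2 / ((x0 + y0) * (x1 + y1) * (x0 + x1 + (y0 + y1))) := by
    field_simp; ring
  have : 4 * (x0 * y1 - x1 * y0) ^ 2 / (x0 + x1 + (y0 + y1)) ^ 3 ≤
      (x0 * y1 - x1 * y0) ^ 2 / ((x0 + y0) * (x1 + y1) * (x0 + x1 + (y0 + y1))) := by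
    rw [div_le_div_iff₀ (by positivity) (by positivity)]
    have h4 : 4 * ((x0 + y0) * (x1 + y1)) ≤ (x0 + x1 + (y0 + y1)) ^ 2 := by
      nlinarith [sq_nonneg (x0 + y0 - (x1 + y1))]
    have := mul_le_mul_of_nonneg_left h4
      (mul_nonneg (sq_nonneg (x0 * y1 - x1 * y0)) hs.le)
    nlinarith
  linarith

end

end Pool.Agent.MP_fc1aea_an.H30

namespace Pool.Agent.MP_fc1aea_an.H30
open Filter Topology MeasureTheory

noncomputable section

variable {Y : Type*} [NormedAddCommGroup Y] [NormedSpace ℝ Y]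

theorem treea_step {κ c s : ℝ} (hκ : 0 < κ) (hκ1 : κ ≤ 1) (hc : 0 < c) {m : List Bool → ℝ}
    (hm : Addi m) (hs : 0 ≤ s) (A : List Bool) : 0 ≤ s * (1 - hz κ c m A) :=
  mul_nonneg hs (by linarith [hz_le hκ.le hc hm A])

theorem treea_Rm_nonneg {κ c : ℝ} (hκ : 0 < κ) (hκ1 : κ ≤ 1) (hc : 0 < c) {m : List Bool → ℝ}
    (hm : Addi m) (N : ℕ) : ∀ (s : ℝ) (A : List Bool), 0 ≤ s → 0 ≤ Rm κ c m N s A := by
  induction N with
  | zero => intro s A hs; exact mul_nonneg hs (hm.nn A)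
  | succ N ih =>
    intro s A hs
    have := treea_step hκ hκ1 hc hm hs A
    exact add_nonneg (ih _ _ this) (ih _ _ this)

theorem treea_head {κ c s : ℝ} (hκ : 0 < κ) {m : List Bool → ℝ} (hm : Addi m) {y : List Bool → Y}
    (hy : ∀ B, ‖y B‖ ≤ 1) (hs : 0 ≤ s) (A : List Bool) :
    ‖(s * hz κ c m A * m A) • y A‖ ≤ s * hz κ c m A * m A := by
  have h0 : 0 ≤ s * hz κ c m A * m A :=
    mul_nonneg (mul_nonneg hs (hz_nonneg hκ.le m A)) (hm.nn A)
  rw [norm_smul, Real.norm_of_nonneg h0]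
  exact mul_le_of_le_one_right h0 (hy A)

theorem treea_V_Rm {κ c : ℝ} (hκ : 0 < κ) (hκ1 : κ ≤ 1) (hc : 0 < c) {m : List Bool → ℝ}
    (hm : Addi m) {y : List Bool → Y} (hy : ∀ B, ‖y B‖ ≤ 1) (N : ℕ) :
    ∀ (s : ℝ) (A : List Bool), 0 ≤ s → ‖V κ c m y N s A‖ + Rm κ c m N s A ≤ s * m A := by
  induction N with
  | zero => intro s A _; simp [V, Rm]
  | succ N ih =>
    intro s A hs
    have h1 := treea_step hκ hκ1 hc hm hs A
    have a0 := ih _ (false :: A) h1
    have a1 := ih _ (true :: A) h1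
    have a2 := treea_head (c := c) hκ hm hy hs A
    have a3 := norm_add₃_le (a := (s * hz κ c m A * m A) • y A)
      (b := V κ c m y N (s * (1 - hz κ c m A)) (false :: A))
      (c := V κ c m y N (s * (1 - hz κ c m A)) (true :: A))
    have a4 : s * m A = s * hz κ c m A * m A + s * (1 - hz κ c m A) * m (false :: A) +
        s * (1 - hz κ c m A) * m (true :: A) := by
      have := hm.add A
      linear_combination (s * (1 - hz κ c m A)) * this
    simp only [V, Rm]
    linarith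

theorem treea_V_le {κ c : ℝ} (hκ : 0 < κ) (hκ1 : κ ≤ 1) (hc : 0 < c) {m : List Bool → ℝ}
    (hm : Addi m) {y : List Bool → Y} (hy : ∀ B, ‖y B‖ ≤ 1) (N : ℕ) {s : ℝ} (A : List Bool)
    (hs : 0 ≤ s) : ‖V κ c m y N s A‖ ≤ s * m A := by
  linarith [treea_V_Rm hκ hκ1 hc hm hy N s A hs, treea_Rm_nonneg hκ hκ1 hc hm N s A hs]

theorem treea_V_succ {κ c : ℝ} (hκ : 0 < κ) (hκ1 : κ ≤ 1) (hc : 0 < c) {m : List Bool → ℝ}
    (hm : Addi m) {y : List Bool → Y} (hy : ∀ B, ‖y B‖ ≤ 1) (N : ℕ) :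
    ∀ (s : ℝ) (A : List Bool), 0 ≤ s → ‖V κ c m y (N + 1) s A - V κ c m y N s A‖ ≤
      Rm κ c m N s A - Rm κ c m (N + 1) s A := by
  induction N with
  | zero =>
    intro s A hs
    have a2 := treea_head (c := c) hκ hm hy hs A
    have a4 : s * m A = s * hz κ c m A * m A + s * (1 - hz κ c m A) * m (false :: A) +
        s * (1 - hz κ c m A) * m (true :: A) := by
      have := hm.add A
      linear_combination (s * (1 - hz κ c m A)) * this
    simp only [V, Rm, add_zero, sub_zero]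
    linarith
  | succ N ih =>
    intro s A hs
    have h1 := treea_step hκ hκ1 hc hm hs A
    have a0 := ih _ (false :: A) h1
    have a1 := ih _ (true :: A) h1
    have e : V κ c m y (N + 1 + 1) s A - V κ c m y (N + 1) s A =
        (V κ c m y (N + 1) (s * (1 - hz κ c m A)) (false :: A) -
          V κ c m y N (s * (1 - hz κ c m A)) (false :: A)) +
        (V κ c m y (N + 1) (s * (1 - hz κ c m A)) (true :: A) -
          V κ c m y N (s * (1 - hz κ c m A)) (true :: A)) := by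
      rw [V, V.eq_2 κ c m y s A N]
      abel
    rw [e, Rm.eq_2 κ c m s A (N + 1), Rm.eq_2 κ c m s A N]
    refine (norm_add_le _ _).trans ?_
    linarith

/-- Plan.  By induction on `N` (generalizing `s`, `A`, with `0 ≤ s`):
`‖V N s A‖ + Rm N s A ≤ s * m A`, `0 ≤ Rm N s A`,
`‖V (N+1) s A - V N s A‖ ≤ Rm N s A - Rm (N+1) s A`.  Hence `W` is Cauchy
(the sum over the roots of `Rm N` is antitone and nonnegative). -/
theorem psi_tendsto [CompleteSpace Y] {κ c : ℝ} (hκ : 0 < κ) (hκ1 : κ ≤ 1) (hc : 0 < c) (n0 : ℕ)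
    {m : List Bool → ℝ} (hm : Addi m) {y : List Bool → Y} (hy : ∀ B, ‖y B‖ ≤ 1) :
    Tendsto (W κ c n0 m y) atTop (𝓝 (psi κ c n0 m y)) := by
  set R : ℕ → ℝ := fun N => ∑ A ∈ lev n0, Rm κ c m N (1 - chi c m A) A with hR
  have h1 : ∀ A, 0 ≤ 1 - chi c m A := fun A => by linarith [chi_le_one hc hm A]
  have hR0 : ∀ N, 0 ≤ R N := fun N =>
    Finset.sum_nonneg fun A _ => treea_Rm_nonneg hκ hκ1 hc hm N _ A (h1 A)
  have hd : ∀ N, dist (W κ c n0 m y N) (W κ c n0 m y (N + 1)) ≤ R N - R (N + 1) := by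
    intro N
    rw [dist_comm, dist_eq_norm, W, W, ← Finset.sum_sub_distrib, hR, ← Finset.sum_sub_distrib]
    refine norm_sum_le_of_le _ fun A _ => ?_
    rw [add_sub_add_left_eq_sub]
    exact treea_V_succ hκ hκ1 hc hm hy N _ A (h1 A)
  have hs : Summable fun N => R N - R (N + 1) := by
    refine summable_of_sum_range_le (c := R 0) (fun N => dist_nonneg.trans (hd N)) fun n => ?_
    rw [Finset.sum_range_sub']
    linarith [hR0 n]
  exact (cauchySeq_of_dist_le_of_summable _ hd hs).tendsto_limUnder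

/-- Plan: `‖W N‖ ≤ ∑ roots (chi m + (1 - chi) m) = m []` (`sum_lev_eq`). -/
theorem psi_norm [CompleteSpace Y] {κ c : ℝ} (hκ : 0 < κ) (hκ1 : κ ≤ 1) (hc : 0 < c) (n0 : ℕ)
    {m : List Bool → ℝ} (hm : Addi m) {y : List Bool → Y} (hy : ∀ B, ‖y B‖ ≤ 1) :
    ‖psi κ c n0 m y‖ ≤ m [] := by
  refine le_of_tendsto' (psi_tendsto hκ hκ1 hc n0 hm hy).norm fun N => ?_
  rw [← sum_lev_eq hm.add n0, W]
  refine norm_sum_le_of_le _ fun A _ => (norm_add_le _ _).trans ?_
  have h1 : 0 ≤ 1 - chi c m A := by linarith [chi_le_one hc hm A]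
  have h2 := treea_V_le hκ hκ1 hc hm hy N A h1
  have h0 : 0 ≤ chi c m A * m A := mul_nonneg (chi_nonneg hc hm A) (hm.nn A)
  have h3 : ‖(chi c m A * m A) • y A‖ ≤ chi c m A * m A := by
    rw [norm_smul, Real.norm_of_nonneg h0]
    exact mul_le_of_le_one_right h0 (hy A)
  linarith

theorem treea_map {Z : Type*} [NormedAddCommGroup Z] [NormedSpace ℝ Z] (κ c : ℝ)
    (m : List Bool → ℝ) (y : List Bool → Y) (q : Y →L[ℝ] Z) (N : ℕ) :
    ∀ (s : ℝ) (A : List Bool), q (V κ c m y N s A) = V κ c m (fun B => q (y B)) N s A := by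
  induction N with
  | zero => intro s A; simp [V]
  | succ N ih => intro s A; simp only [V, map_add, map_smul, ih]

/-- Plan: `q (V y N s A) = V (q ∘ y) N s A` by induction, then uniqueness of limits. -/
theorem psi_map [CompleteSpace Y] {Z : Type*} [NormedAddCommGroup Z] [NormedSpace ℝ Z]
    [CompleteSpace Z] {κ c : ℝ} (hκ : 0 < κ) (hκ1 : κ ≤ 1) (hc : 0 < c) (n0 : ℕ)
    {m : List Bool → ℝ} (hm : Addi m) {y : List Bool → Y} (hy : ∀ B, ‖y B‖ ≤ 1)
    (q : Y →L[ℝ] Z) (hq : ∀ B, ‖q (y B)‖ ≤ 1) :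
    q (psi κ c n0 m y) = psi κ c n0 m (fun B => q (y B)) := by
  refine tendsto_nhds_unique ((q.continuous.tendsto _).comp (psi_tendsto hκ hκ1 hc n0 hm hy))
    ((psi_tendsto hκ hκ1 hc n0 hm hq).congr fun N => ?_)
  simp only [W, Function.comp, map_sum, map_add, map_smul, treea_map]

/-- the bound of the induction -/
def treeaB (κ t ν m u s s' : ℝ) : ℝ :=
  m * |s - s'| + s' * u + 2 * u + 2 * κ * t * s * m + (4 * κ + 4 / t) * ((m + ν) * u / (m + ν + u))

theorem treea_hz {κ t θ Δ : ℝ} (hκ : 0 < κ) (ht : 0 < t) :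
    |κ * θ ^ 2 - κ * (θ + Δ) ^ 2| ≤ κ * t * (κ * θ ^ 2) + (κ + 1 / t) * Δ ^ 2 := by
  have h1 : 0 ≤ (t * κ * θ + Δ) ^ 2 / t := by positivity
  have h2 : 0 ≤ (t * κ * θ - Δ) ^ 2 / t := by positivity
  have e1 : (t * κ * θ + Δ) ^ 2 / t = κ * t * (κ * θ ^ 2) + 1 / t * Δ ^ 2 + 2 * κ * θ * Δ := by
    field_simp; ring
  have e2 : (t * κ * θ - Δ) ^ 2 / t = κ * t * (κ * θ ^ 2) + 1 / t * Δ ^ 2 - 2 * κ * θ * Δ := by
    field_simp; ring
  have h3 : 0 ≤ κ * Δ ^ 2 := by positivity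
  rw [abs_le]
  constructor <;> nlinarith

theorem treea_gap {m0 m1 u0 u1 ν : ℝ} (a0 : 0 ≤ m0) (a1 : 0 ≤ m1) (b0 : 0 ≤ u0) (b1 : 0 ≤ u1)
    (hν : 0 < ν) (hu : u0 + u1 ≤ m0 + m1) :
    (m0 + ν / 2) * u0 / (m0 + ν / 2 + u0) + (m1 + ν / 2) * u1 / (m1 + ν / 2 + u1) +
      (m0 + m1) * ((m0 + u0 - (m1 + u1)) / (m0 + m1 + (u0 + u1) + ν) -
        (m0 - m1) / (m0 + m1 + ν)) ^ 2 / 2 ≤
      (m0 + m1 + ν) * (u0 + u1) / (m0 + m1 + ν + (u0 + u1)) := by
  have hg := par_gap (x0 := m0 + ν / 2) (x1 := m1 + ν / 2) (y0 := u0) (y1 := u1)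
    (by positivity) (by positivity)
  have e0 : m0 + ν / 2 + (m1 + ν / 2) = m0 + m1 + ν := by ring
  rw [e0] at hg
  refine le_trans (add_le_add_right ?_ _) hg
  set X := m0 + m1 + ν with hX
  set U := u0 + u1 with hU
  set Z := (m0 + ν / 2) * u1 - (m1 + ν / 2) * u0 with hZ
  have hX0 : 0 < X := by positivity
  have hU0 : 0 ≤ U := by positivity
  have e1 : (m0 + u0 - (m1 + u1)) / (m0 + m1 + U + ν) - (m0 - m1) / X =
      -2 * Z / (X * (X + U)) := by
    have : m0 + m1 + U + ν = X + U := by rw [hX]; ring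
    rw [this]
    field_simp
    rw [hX, hU, hZ]
    ring
  rw [e1]
  have e2 : (m0 + m1) * (-2 * Z / (X * (X + U))) ^ 2 / 2 =
      4 * Z ^ 2 / (X + U) ^ 3 * ((m0 + m1) * (X + U) / (2 * X ^ 2)) := by
    field_simp
    ring
  rw [e2]
  refine mul_le_of_le_one_right (by positivity) ?_
  rw [div_le_one (by positivity)]
  have c1 : m0 + m1 ≤ X := by rw [hX]; linarith
  have c2 : X + U ≤ 2 * X := by linarith
  calc (m0 + m1) * (X + U) ≤ X * (2 * X) := by gcongr
    _ = 2 * X ^ 2 := by ring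

theorem treea_node {m0 m1 u0 u1 ν s s' κ t h h' D : ℝ} (a0 : 0 ≤ m0) (a1 : 0 ≤ m1) (hκ : 0 < κ)
    (ht : 0 < t) (b0 : 0 ≤ u0) (b1 : 0 ≤ u1) (s0 : 0 ≤ s) (s1 : s ≤ 1) (r0 : 0 ≤ s')
    (k0 : 0 ≤ h') (k1 : h' ≤ 1) (hD : 0 ≤ D) (hh : |h - h'| ≤ κ * t * h + (κ + 1 / t) * D)
    (hg : (m0 + ν / 2) * u0 / (m0 + ν / 2 + u0) + (m1 + ν / 2) * u1 / (m1 + ν / 2 + u1) +
      (m0 + m1) * D / 2 ≤ (m0 + m1 + ν) * (u0 + u1) / (m0 + m1 + ν + (u0 + u1))) :
    |s * h * (m0 + m1) - s' * h' * (m0 + m1 + (u0 + u1))| +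
      treeaB κ t (ν / 2) m0 u0 (s * (1 - h)) (s' * (1 - h')) +
      treeaB κ t (ν / 2) m1 u1 (s * (1 - h)) (s' * (1 - h')) ≤
      treeaB κ t ν (m0 + m1) (u0 + u1) s s' := by
  have hm : 0 ≤ m0 + m1 := by positivity
  have c1 : |s * h - s' * h'| ≤ s * |h - h'| + h' * |s - s'| := by
    have : s * h - s' * h' = s * (h - h') + h' * (s - s') := by ring
    rw [this]
    refine (abs_add_le _ _).trans ?_
    rw [abs_mul, abs_mul, abs_of_nonneg s0, abs_of_nonneg k0]
  have c2 : |s * (1 - h) - s' * (1 - h')| ≤ s * |h - h'| + (1 - h') * |s - s'| := by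
    have : s * (1 - h) - s' * (1 - h') = -(s * (h - h')) + (1 - h') * (s - s') := by ring
    rw [this]
    refine (abs_add_le _ _).trans ?_
    rw [abs_neg, abs_mul, abs_mul, abs_of_nonneg s0, abs_of_nonneg (sub_nonneg.2 k1)]
  have c3 : |s * h * (m0 + m1) - s' * h' * (m0 + m1 + (u0 + u1))| ≤
      (m0 + m1) * |s * h - s' * h'| + s' * h' * (u0 + u1) := by
    have : s * h * (m0 + m1) - s' * h' * (m0 + m1 + (u0 + u1)) =
        (m0 + m1) * (s * h - s' * h') + -(s' * h' * (u0 + u1)) := by ring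
    rw [this]
    refine (abs_add_le _ _).trans ?_
    rw [abs_neg, abs_mul, abs_of_nonneg hm, abs_of_nonneg (by positivity : 0 ≤ s' * h' * (u0 + u1))]
  have d1 := mul_le_mul_of_nonneg_left c1 hm
  have d2 := mul_le_mul_of_nonneg_left c2 hm
  have d3 := mul_le_mul_of_nonneg_left hh (mul_nonneg hm s0)
  have hβ : 0 ≤ κ + 1 / t := by positivity
  have d4 := mul_le_mul_of_nonneg_left hg hβ
  have d5 : s * ((κ + 1 / t) * ((m0 + m1) * D)) ≤ (κ + 1 / t) * ((m0 + m1) * D) :=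
    mul_le_of_le_one_left (by positivity) s1
  have e : 4 * κ + 4 / t = 4 * (κ + 1 / t) := by ring
  simp only [treeaB, e]
  generalize κ + 1 / t = β at *
  generalize (m0 + ν / 2) * u0 / (m0 + ν / 2 + u0) = H0 at *
  generalize (m1 + ν / 2) * u1 / (m1 + ν / 2 + u1) = H1 at *
  generalize (m0 + m1 + ν) * (u0 + u1) / (m0 + m1 + ν + (u0 + u1)) = H at *
  generalize |s * (1 - h) - s' * (1 - h')| = P at *
  generalize |s * h - s' * h'| = Q at *
  generalize |h - h'| = T at *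
  generalize |s - s'| = S at *
  linarith

theorem treea_lip {κ c t : ℝ} (hκ : 0 < κ) (hκ1 : κ ≤ 1) (hc : 0 < c) (ht : 0 < t)
    {m u : List Bool → ℝ} (hm : Addi m) (hu : Addi u) (hg : Addi fun A => m A + u A)
    {y : List Bool → Y} (hy : ∀ B, ‖y B‖ ≤ 1) (N : ℕ) :
    ∀ (s s' : ℝ) (A : List Bool), 0 ≤ s → s ≤ 1 → 0 ≤ s' → s' ≤ 1 →
      ‖V κ c m y N s A - V κ c (fun A => m A + u A) y N s' A‖ ≤
        treeaB κ t (c * wt A) (m A) (u A) s s' := by
  induction N with
  | zero =>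
    intro s s' A s0 _ r0 _
    have := hm.nn A
    have := hu.nn A
    have := wt_pos A
    simp only [V, sub_zero, norm_zero, treeaB]
    positivity
  | succ N ih =>
    intro s s' A s0 s1 r0 r1
    have a := hm.nn A
    have b := hu.nn A
    have hν : 0 < c * wt A := mul_pos hc (wt_pos A)
    rcases le_total (m A) (u A) with hmu | hmu
    · have c1 := treea_V_le hκ hκ1 hc hm hy (N + 1) A s0
      have c2 := treea_V_le hκ hκ1 hc hg hy (N + 1) A r0
      refine (norm_sub_le _ _).trans ?_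
      have c3 : 0 ≤ m A * |s - s'| + 2 * κ * t * s * m A +
          (4 * κ + 4 / t) * ((m A + c * wt A) * u A / (m A + c * wt A + u A)) := by positivity
      have c4 : s * m A ≤ m A := mul_le_of_le_one_left a s1
      have c5 : s' * m A ≤ m A := mul_le_of_le_one_left a r1
      simp only [treeaB]
      linarith
    · set g : List Bool → ℝ := fun A => m A + u A with hgd
      set h := hz κ c m A with hh
      set h' := hz κ c g A with hh'
      have k0 : 0 ≤ h := hz_nonneg hκ.le m A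
      have k1 : h ≤ 1 := (hz_le hκ.le hc hm A).trans hκ1
      have l0 : 0 ≤ h' := hz_nonneg hκ.le g A
      have l1 : h' ≤ 1 := (hz_le hκ.le hc hg A).trans hκ1
      have p0 : 0 ≤ s * (1 - h) := mul_nonneg s0 (by linarith)
      have p1 : s * (1 - h) ≤ 1 := mul_le_one₀ s1 (by linarith) (by linarith)
      have q0 : 0 ≤ s' * (1 - h') := mul_nonneg r0 (by linarith)
      have q1 : s' * (1 - h') ≤ 1 := mul_le_one₀ r1 (by linarith) (by linarith)
      have i0 := ih _ _ (false :: A) p0 p1 q0 q1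
      have i1 := ih _ _ (true :: A) p0 p1 q0 q1
      rw [wt_cons, ← mul_div_assoc] at i0 i1
      have e : V κ c m y (N + 1) s A - V κ c g y (N + 1) s' A =
          (s * h * m A - s' * h' * g A) • y A +
          (V κ c m y N (s * (1 - h)) (false :: A) - V κ c g y N (s' * (1 - h')) (false :: A)) +
          (V κ c m y N (s * (1 - h)) (true :: A) - V κ c g y N (s' * (1 - h')) (true :: A)) := by
        rw [V, V, sub_smul]
        abel
      have i2 : ‖(s * h * m A - s' * h' * g A) • y A‖ ≤ |s * h * m A - s' * h' * g A| := by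
        rw [norm_smul, Real.norm_eq_abs]
        exact mul_le_of_le_one_right (abs_nonneg _) (hy A)
      rw [e]
      refine norm_add₃_le.trans ((add_le_add (add_le_add i2 i0) i1).trans ?_)
      have em := hm.add A
      have eu := hu.add A
      have eg : g A = m (false :: A) + m (true :: A) + (u (false :: A) + u (true :: A)) := by
        simp only [hgd]
        rw [← em, ← eu]
      have hgap := treea_gap (hm.nn (false :: A)) (hm.nn (true :: A)) (hu.nn (false :: A))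
        (hu.nn (true :: A)) hν (by linarith)
      rw [eg, em, eu]
      refine treea_node (hm.nn _) (hm.nn _) hκ ht (hu.nn _) (hu.nn _) s0 s1 r0 l0 l1
        (sq_nonneg _) ?_ hgap
      have e1 : h = κ * ((m (false :: A) - m (true :: A)) /
          (m (false :: A) + m (true :: A) + c * wt A)) ^ 2 := by
        rw [hh, hz, ← em]
      have e2 : h' = κ * ((m (false :: A) - m (true :: A)) /
          (m (false :: A) + m (true :: A) + c * wt A) +
          ((m (false :: A) + u (false :: A) - (m (true :: A) + u (true :: A))) /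
            (m (false :: A) + m (true :: A) + (u (false :: A) + u (true :: A)) + c * wt A) -
          (m (false :: A) - m (true :: A)) / (m (false :: A) + m (true :: A) + c * wt A))) ^ 2 := by
        rw [add_sub_cancel, hh', hz, eg]
      rw [e1, e2]
      exact treea_hz hκ ht

theorem treea_chi {m u ν : ℝ} (a : 0 ≤ m) (b : 0 ≤ u) (hν : 0 < ν) :
    m * |m / (m + ν) - (m + u) / (m + u + ν)| ≤ u := by
  have e : m / (m + ν) - (m + u) / (m + u + ν) = -(ν * u / ((m + ν) * (m + u + ν))) := by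
    field_simp
    ring
  rw [e, abs_neg, abs_of_nonneg (by positivity), ← mul_div_assoc, div_le_iff₀ (by positivity)]
  have : m * ν ≤ (m + ν) * (m + u + ν) := by nlinarith [mul_nonneg a b, mul_nonneg hν.le b]
  nlinarith [mul_le_mul_of_nonneg_left this b]

/-- The Lipschitz estimate.  Plan: write `g = m + u`, `ν = c * wt A`, `α = κ t`,
`β = 4 κ (1 + 1/α) = 4 κ + 4 / t`, `H x y = x y / (x + y)`.  For `s, s' ∈ [0,1]`, by induction on `N`:
`‖V m N s A - V g N s' A‖ ≤ m A * |s - s'| + s' * u A + 2 * u A + 2 α s m A + β H (m A + ν) (u A)`.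
If `m A ≤ u A` bound the left side by `s m A + s' (m A + u A) ≤ 2 u A + s' u A` (first bound in the
plan of `psi_tendsto`).  Otherwise put `h = hz m A`, `h' = hz g A`, `θ = (m0 - m1)/(m A + ν)`,
`θ' = (g0 - g1)/(g A + ν)`, `Δ = θ' - θ`.  Then `|h - h'| ≤ α h + κ (1 + 1/α) Δ^2`
(from `2|θ||Δ| ≤ α θ^2 + Δ^2/α`),
`|s h - s' h'| ≤ s|h - h'| + h'|s - s'|`, `|s(1-h) - s'(1-h')| ≤ s|h-h'| + (1-h')|s-s'|`, and `par_gap` with
`x_i = m_i + ν/2`, `y_i = u_i` (note `c * wt (b :: A) = ν/2`) gives gap `≥ X^2 Δ^2/(X+U) ≥ m A Δ^2/2` where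
`X = m A + ν ≥ U = u A`, because `Δ = 2 (x1 y0 - x0 y1)/(X (X+U))`.
At a root: `m A * |chi m A - chi g A| ≤ u A`, `H ≤ u A`; sum over the roots with `sum_lev_eq`; pass to the limit. -/
theorem psi_lip [CompleteSpace Y] {κ c : ℝ} (hκ : 0 < κ) (hκ1 : κ ≤ 1) (hc : 0 < c) (n0 : ℕ)
    {m u : List Bool → ℝ} (hm : Addi m) (hu : Addi u) {y : List Bool → Y} (hy : ∀ B, ‖y B‖ ≤ 1)
    {t : ℝ} (ht : 0 < t) (ht1 : t ≤ 1) :
    ‖psi κ c n0 m y - psi κ c n0 (fun A => m A + u A) y‖ ≤ 14 * u [] / t + 2 * κ * t * m [] := by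
  have hg : Addi fun A => m A + u A :=
    ⟨fun A => add_nonneg (hm.nn A) (hu.nn A), fun A => by rw [hm.add A, hu.add A]; ring⟩
  refine le_of_tendsto' ((psi_tendsto hκ hκ1 hc n0 hm hy).sub
    (psi_tendsto hκ hκ1 hc n0 hg hy)).norm fun N => ?_
  rw [← sum_lev_eq hm.add n0, ← sum_lev_eq hu.add n0, W, W, ← Finset.sum_sub_distrib,
    Finset.mul_sum, Finset.mul_sum, Finset.sum_div, ← Finset.sum_add_distrib]
  refine norm_sum_le_of_le _ fun A _ => ?_
  set g : List Bool → ℝ := fun A => m A + u A with hgd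
  have a := hm.nn A
  have b := hu.nn A
  have hν : 0 < c * wt A := mul_pos hc (wt_pos A)
  have k0 := chi_nonneg hc hm A
  have k1 := chi_le_one hc hm A
  have l0 := chi_nonneg hc hg A
  have l1 := chi_le_one hc hg A
  have i0 := treea_lip hκ hκ1 hc ht hm hu hg hy N (1 - chi c m A) (1 - chi c g A) A
    (by linarith) (by linarith) (by linarith) (by linarith)
  have i1 : m A * |chi c m A - chi c g A| ≤ u A := treea_chi a b hν
  have e : (chi c m A * m A) • y A + V κ c m y N (1 - chi c m A) A -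
      ((chi c g A * g A) • y A + V κ c g y N (1 - chi c g A) A) =
      (chi c m A * m A - chi c g A * g A) • y A +
        (V κ c m y N (1 - chi c m A) A - V κ c g y N (1 - chi c g A) A) := by
    rw [sub_smul]
    abel
  have i2 : ‖(chi c m A * m A - chi c g A * g A) • y A‖ ≤
      m A * |chi c m A - chi c g A| + chi c g A * u A := by
    rw [norm_smul, Real.norm_eq_abs]
    refine (mul_le_of_le_one_right (abs_nonneg _) (hy A)).trans ?_
    have : chi c m A * m A - chi c g A * g A =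
        m A * (chi c m A - chi c g A) + -(chi c g A * u A) := by
      simp only [hgd]
      ring
    rw [this]
    refine (abs_add_le _ _).trans ?_
    rw [abs_neg, abs_mul, abs_of_nonneg a, abs_of_nonneg (mul_nonneg l0 b)]
  rw [e]
  refine (norm_add_le _ _).trans ((add_le_add i2 i0).trans ?_)
  have e1 : |1 - chi c m A - (1 - chi c g A)| = |chi c m A - chi c g A| := by
    rw [abs_sub_comm]
    congr 1
    ring
  have i3 : (m A + c * wt A) * u A / (m A + c * wt A + u A) ≤ u A := by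
    rw [div_le_iff₀ (by positivity)]
    nlinarith [mul_nonneg b b]
  have i4 := mul_le_mul_of_nonneg_left i3 (by positivity : 0 ≤ 4 * κ + 4 / t)
  have i5 : u A ≤ u A / t := le_div_self b ht ht1
  have i6 : κ * u A ≤ u A := mul_le_of_le_one_left b hκ1
  have i7 : 0 ≤ κ * t * m A * chi c m A := by positivity
  have e2 : (4 * κ + 4 / t) * u A = 4 * (κ * u A) + 4 * (u A / t) := by ring
  have e3 : 14 * u A / t = 14 * (u A / t) := by ring
  simp only [treeaB, e1]
  rw [e2] at i4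
  rw [e3]
  linarith

end

end Pool.Agent.MP_fc1aea_an.H30

namespace Pool.Agent.MP_fc1aea_an.H30
open Filter Topology MeasureTheory

noncomputable section

variable {Y : Type*} [NormedAddCommGroup Y] [NormedSpace ℝ Y]

theorem treeb_log_le {a b : ℝ} (ha : 0 < a) (hb : 0 < b) :
    Real.log a ≤ Real.log b + (a - b) / b := by
  have h := Real.log_le_sub_one_of_pos (div_pos ha hb)
  rw [Real.log_div ha.ne' hb.ne'] at h
  have : (a - b) / b = a / b - 1 := by field_simp
  linarith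

theorem treeb_log_nonneg (a : ℝ) : 0 ≤ Real.log (1 + a ^ 2) :=
  Real.log_nonneg (by nlinarith [sq_nonneg a])

theorem treeb_step {κ ν x0 x1 : ℝ} (hκ : 0 < κ) (hν : 0 < ν) (h0 : 0 ≤ x0) (h1 : 0 ≤ x1) :
    x0 * (1 + κ / 6 * Real.log (1 + (x0 / (ν / 2)) ^ 2)) +
      x1 * (1 + κ / 6 * Real.log (1 + (x1 / (ν / 2)) ^ 2)) ≤
    (x0 + x1) * (1 + κ / 6 * Real.log (1 + ((x0 + x1) / ν) ^ 2)) *
      (1 + κ * ((x0 - x1) / (x0 + x1 + ν)) ^ 2) := by
  set b : ℝ := 1 + ((x0 + x1) / ν) ^ 2 with hb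
  have hb0 : 0 < b := by positivity
  have e0 := treeb_log_le (a := 1 + (x0 / (ν / 2)) ^ 2) (by positivity) hb0
  have e1 := treeb_log_le (a := 1 + (x1 / (ν / 2)) ^ 2) (by positivity) hb0
  have hL : 0 ≤ Real.log b := treeb_log_nonneg _
  have key : x0 * ((1 + (x0 / (ν / 2)) ^ 2 - b) / b) + x1 * ((1 + (x1 / (ν / 2)) ^ 2 - b) / b) =
      3 * (x0 + x1) * ((x0 - x1) ^ 2 / (ν ^ 2 + (x0 + x1) ^ 2)) := by
    rw [hb]; field_simp; ring
  have key2 : (x0 - x1) ^ 2 / (ν ^ 2 + (x0 + x1) ^ 2) ≤ 2 * ((x0 - x1) / (x0 + x1 + ν)) ^ 2 := by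
    rw [div_pow, ← mul_div_assoc, div_le_div_iff₀ (by positivity) (by positivity)]
    have : (x0 + x1 + ν) ^ 2 ≤ 2 * (ν ^ 2 + (x0 + x1) ^ 2) := by
      nlinarith [sq_nonneg (x0 + x1 - ν)]
    nlinarith [mul_le_mul_of_nonneg_left this (sq_nonneg (x0 - x1))]
  set θ2 : ℝ := ((x0 - x1) / (x0 + x1 + ν)) ^ 2 with hθ
  have hθ0 : 0 ≤ θ2 := sq_nonneg _
  have f0 := mul_le_mul_of_nonneg_left e0 h0
  have f1 := mul_le_mul_of_nonneg_left e1 h1
  have g : x0 * Real.log (1 + (x0 / (ν / 2)) ^ 2) + x1 * Real.log (1 + (x1 / (ν / 2)) ^ 2) ≤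
      (x0 + x1) * Real.log b + 6 * (x0 + x1) * θ2 := by
    have := mul_le_mul_of_nonneg_left key2 (show 0 ≤ 3 * (x0 + x1) by positivity)
    nlinarith
  have g2 := mul_le_mul_of_nonneg_left g (show 0 ≤ κ / 6 by positivity)
  have g3 : 0 ≤ (x0 + x1) * (κ / 6 * Real.log b) * (κ * θ2) := by positivity
  nlinarith

/-- The unstopped mass.  Plan: `φ x ν = 1 + κ/6 * log (1 + (x/ν)^2)`, `ν = c * wt A`.  Induction on `N`
(`sum_lev_succ'`).  Base: if `κ * wt A ≤ m A` then `m A / ν ≥ κ / c = exp (3/κ^2)`, so `κ φ ≥ 1`;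
otherwise the minimum is `m A`.  Step: `∑ x_i φ x_i (ν/2) ≤ m φ m ν (1 + hz)`, from
`log a ≤ log b + (a - b)/b` with `a = 1 + (2 x_i/ν)^2`, `b = 1 + (m/ν)^2`,
`∑ x_i (4 x_i^2 - m^2) = 3 m (x0 - x1)^2`, `(m + ν)^2 ≤ 2 (m^2 + ν^2)`; and `(1-h)(1+h) ≤ 1`. -/
theorem Rm_le {κ c : ℝ} (hκ : 0 < κ) (hκ1 : κ ≤ 1) (hc : c = κ * Real.exp (-3 / κ ^ 2))
    {m : List Bool → ℝ} (hm : Addi m) (N : ℕ) (s : ℝ) (hs : 0 ≤ s) (hs1 : s ≤ 1) (A : List Bool) :
    Rm κ c m N s A ≤ κ * s * m A * (1 + κ / 6 * Real.log (1 + (m A / (c * wt A)) ^ 2)) +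
      ∑ C ∈ lev N, min (m (C ++ A)) (κ * wt (C ++ A)) := by
  have hc0 : 0 < c := by rw [hc]; positivity
  induction N generalizing s A with
  | zero =>
    have hA := hm.nn A
    have hw := wt_pos A
    have hL := treeb_log_nonneg (m A / (c * wt A))
    simp only [Rm, sum_lev_zero, List.nil_append]
    rcases le_total (m A) (κ * wt A) with h | h
    · rw [min_eq_left h]
      have : 0 ≤ κ * s * m A * (1 + κ / 6 * Real.log (1 + (m A / (c * wt A)) ^ 2)) := by
        positivity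
      nlinarith
    · rw [min_eq_right h]
      have h1 : Real.exp (3 / κ ^ 2) ≤ m A / (c * wt A) := by
        rw [le_div_iff₀ (by positivity), hc]
        have : Real.exp (3 / κ ^ 2) * (κ * Real.exp (-3 / κ ^ 2) * wt A) = κ * wt A := by
          rw [show (-3 : ℝ) / κ ^ 2 = -(3 / κ ^ 2) by ring, Real.exp_neg]
          field_simp
        rw [this]; exact h
      have h2 : 6 / κ ^ 2 ≤ Real.log (1 + (m A / (c * wt A)) ^ 2) := by
        rw [Real.le_log_iff_exp_le (by positivity),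
          show (6 : ℝ) / κ ^ 2 = 3 / κ ^ 2 + 3 / κ ^ 2 by ring, Real.exp_add]
        nlinarith [Real.exp_pos (3 / κ ^ 2)]
      have h3 : 1 ≤ κ * (1 + κ / 6 * Real.log (1 + (m A / (c * wt A)) ^ 2)) := by
        have h4 := mul_le_mul_of_nonneg_left h2 (show 0 ≤ κ ^ 2 / 6 by positivity)
        have h5 : κ ^ 2 / 6 * (6 / κ ^ 2) = 1 := by field_simp
        nlinarith
      have h6 := mul_le_mul_of_nonneg_left h3 (mul_nonneg hs hA)
      have : 0 ≤ κ * wt A := by positivity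
      nlinarith
  | succ N ih =>
    have hh0 := hz_nonneg (c := c) hκ.le m A
    have hh1 := hz_le hκ.le hc0 hm A
    have hs' : 0 ≤ s * (1 - hz κ c m A) := mul_nonneg hs (by linarith)
    have hs1' : s * (1 - hz κ c m A) ≤ 1 := by nlinarith
    have i0 := ih _ hs' hs1' (false :: A)
    have i1 := ih _ hs' hs1' (true :: A)
    rw [sum_lev_succ' N (fun B => min (m B) (κ * wt B)) A]
    simp only [Rm]
    have hw := wt_pos A
    have hst := treeb_step (ν := c * wt A) hκ (by positivity) (hm.nn (false :: A))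
      (hm.nn (true :: A))
    rw [← hm.add A] at hst
    have e : ∀ b, c * wt (b :: A) = c * wt A / 2 := fun b => by rw [wt_cons]; ring
    rw [e] at i0 i1
    change _ ≤ _ * (1 + hz κ c m A) at hst
    have hL := treeb_log_nonneg (m A / (c * wt A))
    have hA := hm.nn A
    set P := m A * (1 + κ / 6 * Real.log (1 + (m A / (c * wt A)) ^ 2)) with hP
    have hP0 : 0 ≤ P := by positivity
    have k1 := mul_le_mul_of_nonneg_left hst (mul_nonneg hκ.le hs')
    have k2 : κ * (s * (1 - hz κ c m A)) * (P * (1 + hz κ c m A)) ≤ κ * s * P := by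
      have : 0 ≤ κ * s * P * hz κ c m A ^ 2 := by positivity
      nlinarith
    have k3 : κ * s * m A * (1 + κ / 6 * Real.log (1 + (m A / (c * wt A)) ^ 2)) = κ * s * P := by
      rw [hP]; ring
    rw [k3]
    nlinarith

theorem treeb_V_err {κ c : ℝ} (hκ : 0 < κ) (hκ1 : κ ≤ 1) (hc0 : 0 < c) (n0 : ℕ)
    {m : List Bool → ℝ} (hm : Addi m) {y : List Bool → Y} (hy : ∀ B, ‖y B‖ ≤ 1)
    {Z : List Bool → Y} (hZ : ∀ A, Z A = Z (false :: A) + Z (true :: A))
    (hZm : ∀ A, ‖Z A‖ ≤ m A)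
    (hsm : ∀ A : List Bool, n0 ≤ A.length → ‖Z A - m A • y A‖ ≤ κ * (c * wt A))
    (N : ℕ) (s : ℝ) (hs : 0 ≤ s) (hs1 : s ≤ 1) (A : List Bool) (hA : n0 ≤ A.length) :
    ‖s • Z A - V κ c m y N s A‖ ≤
      κ * s * m A + 4 * κ * (m A * (c * wt A) / (m A + c * wt A)) + Rm κ c m N s A := by
  induction N generalizing s A with
  | zero =>
    have hA0 := hm.nn A
    have hw := wt_pos A
    simp only [V, Rm, sub_zero, norm_smul, Real.norm_eq_abs, abs_of_nonneg hs]
    have := mul_le_mul_of_nonneg_left (hZm A) hs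
    have : 0 ≤ κ * s * m A + 4 * κ * (m A * (c * wt A) / (m A + c * wt A)) := by positivity
    linarith
  | succ N ih =>
    have hh0 := hz_nonneg (c := c) hκ.le m A
    have hh1 := hz_le hκ.le hc0 hm A
    have hs' : 0 ≤ s * (1 - hz κ c m A) := mul_nonneg hs (by linarith)
    have hs1' : s * (1 - hz κ c m A) ≤ 1 := by nlinarith
    have i0 := ih _ hs' hs1' (false :: A) (by simp; omega)
    have i1 := ih _ hs' hs1' (true :: A) (by simp; omega)
    have e : ∀ b, c * wt (b :: A) = c * wt A / 2 := fun b => by rw [wt_cons]; ring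
    rw [e] at i0 i1
    have hw := wt_pos A
    have hν : 0 < c * wt A := by positivity
    have h0 := hm.nn (false :: A)
    have h1 := hm.nn (true :: A)
    have hA0 := hm.nn A
    have hadd := hm.add A
    have hdec : s • Z A - V κ c m y (N + 1) s A =
        (s * hz κ c m A) • (Z A - m A • y A) +
        ((s * (1 - hz κ c m A)) • Z (false :: A) - V κ c m y N (s * (1 - hz κ c m A)) (false :: A)) +
        ((s * (1 - hz κ c m A)) • Z (true :: A) - V κ c m y N (s * (1 - hz κ c m A)) (true :: A)) := by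
      have : s • Z A = (s * hz κ c m A) • Z A +
          (s * (1 - hz κ c m A)) • (Z (false :: A) + Z (true :: A)) := by
        rw [← hZ A, ← add_smul]; congr 1; ring
      rw [this]
      simp only [V, smul_add, smul_sub, smul_smul]
      abel
    have hgap := par_gap (x0 := m (false :: A)) (x1 := m (true :: A)) (y0 := c * wt A / 2)
      (y1 := c * wt A / 2) (by linarith) (by linarith)
    rw [← hadd, add_halves] at hgap
    set G := 4 * (m (false :: A) * (c * wt A / 2) - m (true :: A) * (c * wt A / 2)) ^ 2 /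
      (m A + c * wt A) ^ 3 with hG
    have hG0 : 0 ≤ G := by positivity
    have hsh : 0 ≤ s * hz κ c m A := mul_nonneg hs hh0
    have hkey : s * hz κ c m A * ‖Z A - m A • y A‖ ≤ κ * (s * hz κ c m A) * m A + 4 * κ * G := by
      rcases le_total (c * wt A) (m A) with h | h
      · have a1 := (hsm A hA).trans (mul_le_mul_of_nonneg_left h hκ.le)
        have a2 := mul_le_mul_of_nonneg_left a1 hsh
        have : 0 ≤ 4 * κ * G := by positivity
        nlinarith
      · have a1 : ‖Z A - m A • y A‖ ≤ 2 * m A := by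
          refine (norm_sub_le _ _).trans ?_
          rw [norm_smul, Real.norm_eq_abs, abs_of_nonneg hA0]
          have := mul_le_mul_of_nonneg_left (hy A) hA0
          have := hZm A
          linarith
        have a2 := mul_le_mul_of_nonneg_left a1 hsh
        have a3 : 2 * m A * hz κ c m A ≤ 4 * κ * G := by
          have eG : κ * G = hz κ c m A * ((c * wt A) ^ 2 / (m A + c * wt A)) := by
            rw [hG, hz]; field_simp; ring
          have a4 : m A / 2 ≤ (c * wt A) ^ 2 / (m A + c * wt A) := by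
            rw [div_le_div_iff₀ (by norm_num) (by positivity)]; nlinarith
          have := mul_le_mul_of_nonneg_left a4 hh0
          nlinarith
        have a5 : s * hz κ c m A * (2 * m A) ≤ 2 * m A * hz κ c m A := by
          have : 0 ≤ (1 - s) * (2 * m A * hz κ c m A) :=
            mul_nonneg (by linarith) (by positivity)
          nlinarith
        have : 0 ≤ κ * (s * hz κ c m A) * m A := by positivity
        linarith
    rw [hdec]
    refine (norm_add₃_le).trans ?_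
    rw [norm_smul, Real.norm_eq_abs, abs_of_nonneg hsh]
    simp only [Rm]
    have hg2 := mul_le_mul_of_nonneg_left hgap (show 0 ≤ 4 * κ by positivity)
    have hm2 : κ * (s * (1 - hz κ c m A)) * m (false :: A) +
        κ * (s * (1 - hz κ c m A)) * m (true :: A) + κ * (s * hz κ c m A) * m A = κ * s * m A := by
      rw [hadd]; ring
    linarith

theorem treeb_root {κ c : ℝ} (hκ : 0 < κ) (hκ1 : κ ≤ 1)
    (hc : c = κ * Real.exp (-3 / κ ^ 2)) (n0 : ℕ)
    {m : List Bool → ℝ} (hm : Addi m) {y : List Bool → Y} (hy : ∀ B, ‖y B‖ ≤ 1)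
    {Z : List Bool → Y} (hZ : ∀ A, Z A = Z (false :: A) + Z (true :: A))
    (hZm : ∀ A, ‖Z A‖ ≤ m A)
    (hsm : ∀ A : List Bool, n0 ≤ A.length → ‖Z A - m A • y A‖ ≤ κ * (c * wt A))
    (N : ℕ) (A : List Bool) (hA : n0 ≤ A.length) :
    ‖Z A - ((chi c m A * m A) • y A + V κ c m y N (1 - chi c m A) A)‖ ≤
      8 * κ * m A + ∑ C ∈ lev N, min (m (C ++ A)) (κ * wt (C ++ A)) := by
  have hc0 : 0 < c := by rw [hc]; positivity
  have hχ0 := chi_nonneg hc0 hm A
  have hχ1 := chi_le_one hc0 hm A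
  have hw := wt_pos A
  have hν : 0 < c * wt A := by positivity
  have hA0 := hm.nn A
  have e1 := treeb_V_err hκ hκ1 hc0 n0 hm hy hZ hZm hsm N (1 - chi c m A) (by linarith)
    (by linarith) A hA
  have e2 := Rm_le hκ hκ1 hc hm N (1 - chi c m A) (by linarith) (by linarith) A
  have hdec : Z A - ((chi c m A * m A) • y A + V κ c m y N (1 - chi c m A) A) =
      chi c m A • (Z A - m A • y A) + ((1 - chi c m A) • Z A - V κ c m y N (1 - chi c m A) A) := by
    simp only [smul_sub, sub_smul, smul_smul, one_smul]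
    abel
  have hH : m A * (c * wt A) / (m A + c * wt A) ≤ m A := by
    rw [div_le_iff₀ (by positivity)]; nlinarith
  have e3 : chi c m A * ‖Z A - m A • y A‖ ≤ κ * m A := by
    have a1 := mul_le_mul_of_nonneg_left (hsm A hA) hχ0
    have a2 : chi c m A * (κ * (c * wt A)) = κ * (m A * (c * wt A) / (m A + c * wt A)) := by
      rw [chi]; ring
    have := mul_le_mul_of_nonneg_left hH hκ.le
    linarith
  have e4 : (1 - chi c m A) * (1 + κ / 6 * Real.log (1 + (m A / (c * wt A)) ^ 2)) ≤ 2 := by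
    set a := m A / (c * wt A) with ha
    have ha0 : 0 ≤ a := by positivity
    have b1 : Real.log (1 + a ^ 2) ≤ 2 * a := by
      have c1 : Real.log (1 + a ^ 2) ≤ Real.log ((1 + a) ^ 2) :=
        Real.log_le_log (by positivity) (by nlinarith)
      rw [Real.log_pow] at c1
      have c2 := Real.log_le_sub_one_of_pos (show 0 < 1 + a by positivity)
      push_cast at c1
      linarith
    have b2 : 1 - chi c m A = 1 / (1 + a) := by
      rw [chi, ha]; field_simp; ring
    have b3 := treeb_log_nonneg a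
    rw [b2, one_div_mul_eq_div, div_le_iff₀ (by positivity)]
    nlinarith
  have e5 := mul_le_mul_of_nonneg_left e4 (mul_nonneg hκ.le hA0)
  have e6 := mul_le_mul_of_nonneg_left hH (show 0 ≤ 4 * κ by positivity)
  have e7 : κ * (1 - chi c m A) * m A ≤ κ * m A := by
    have : 0 ≤ κ * chi c m A * m A := by positivity
    nlinarith
  rw [hdec]
  refine (norm_add_le _ _).trans ?_
  rw [norm_smul, Real.norm_eq_abs, abs_of_nonneg hχ0]
  nlinarith

/-- The approximation error.  Plan: for `n0 ≤ A.length`, `s ∈ [0,1]`, by induction on `N`: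
`‖s • Z A - V N s A‖ ≤ κ s m A + 4 κ H (m A) ν + Rm N s A`, `H x y = x y/(x+y)`, `ν = c * wt A`.
Step: `s • Z A = (s h) • Z A + (s (1-h)) • (Z (0A) + Z (1A))`; if `ν ≤ m A` use `hsm`
(`κ ν ≤ κ m A`), else `‖Z A - m A • y A‖ ≤ 2 m A` and `par_gap` with `x_i = m_i`, `y_i = ν/2`:
gap `≥ θ^2 ν^2/(m+ν) ≥ θ^2 m / 2`.  At a root: `chi * κ ν ≤ κ m`, `H ≤ m`,
`(1 - chi) φ ≤ 2` (as `log (1 + a^2) ≤ 2 a`, `1 - chi = 1/(1+a)`, `a = m/ν`).  So
`‖Z [] - W N‖ ≤ 8 κ m [] + ∑ B ∈ lev (n0 + N), min ..` (`sum_lev_add`, `sum_lev_eq`), and let `N → ∞`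
(`psi_tendsto`). -/
theorem psi_err [CompleteSpace Y] {κ c : ℝ} (hκ : 0 < κ) (hκ1 : κ ≤ 1)
    (hc : c = κ * Real.exp (-3 / κ ^ 2)) (n0 : ℕ)
    {m : List Bool → ℝ} (hm : Addi m) {y : List Bool → Y} (hy : ∀ B, ‖y B‖ ≤ 1)
    {Z : List Bool → Y} (hZ : ∀ A, Z A = Z (false :: A) + Z (true :: A))
    (hZm : ∀ A, ‖Z A‖ ≤ m A)
    (hsm : ∀ A : List Bool, n0 ≤ A.length → ‖Z A - m A • y A‖ ≤ κ * (c * wt A))
    {b : ℝ} (hb : ∀ η > 0, ∀ᶠ N in atTop, ∑ B ∈ lev N, min (m B) (κ * wt B) ≤ b + η) :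
    ‖Z [] - psi κ c n0 m y‖ ≤ 8 * κ * m [] + b := by
  have hc0 : 0 < c := by rw [hc]; positivity
  have hW : ∀ N, ‖Z [] - W κ c n0 m y N‖ ≤
      8 * κ * m [] + ∑ B ∈ lev (n0 + N), min (m B) (κ * wt B) := fun N => by
    rw [sum_lev_add, ← sum_lev_eq hm.add n0, ← sum_lev_eq hZ n0, W, ← Finset.sum_sub_distrib,
      Finset.mul_sum, ← Finset.sum_add_distrib]
    refine norm_sum_le_of_le _ fun A hA => ?_
    exact treeb_root hκ hκ1 hc n0 hm hy hZ hZm hsm N A (mem_lev.1 hA).ge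
  have hT : Tendsto (fun N => ‖Z [] - W κ c n0 m y N‖) atTop (𝓝 ‖Z [] - psi κ c n0 m y‖) :=
    (tendsto_const_nhds.sub (psi_tendsto hκ hκ1 hc0 n0 hm hy)).norm
  refine le_of_forall_pos_le_add fun η hη => le_of_tendsto hT ?_
  filter_upwards [(tendsto_add_atTop_nat n0).eventually (hb η hη)] with N hN
  have := hW N
  rw [add_comm n0 N] at this
  linarith

end

end Pool.Agent.MP_fc1aea_an.H30

namespace Pool.Agent.MP_fc1aea_an.H30
open Filter Topology MeasureTheory

noncomputable section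

variable {E Y : Type*} [NormedAddCommGroup E] [NormedSpace ℝ E] [NormedAddCommGroup Y]
  [NormedSpace ℝ Y]

def lay (m : ℕ) (x : ℝ) : ℝ := min x (2 ^ (m + 1) - 1) - min x (2 ^ m - 1)

theorem lay_pow (m : ℕ) : (0:ℝ) < 2 ^ m ∧ (2:ℝ) ^ (m + 1) = 2 * 2 ^ m := ⟨by positivity, by ring⟩

theorem lay_nonneg (m : ℕ) (x : ℝ) : 0 ≤ lay m x := by
  obtain ⟨h1, h2⟩ := lay_pow m
  exact sub_nonneg.2 (min_le_min_left _ (by linarith))

theorem lay_le (m : ℕ) (x : ℝ) : lay m x ≤ 2 ^ m := by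
  obtain ⟨h1, h2⟩ := lay_pow m
  unfold lay
  rcases le_total x (2 ^ m - 1) with h | h
  · rw [min_eq_left h]; linarith [min_le_left x (2 ^ (m + 1) - 1)]
  · rw [min_eq_right h]; linarith [min_le_right x (2 ^ (m + 1) - 1)]

theorem lay_mono (m : ℕ) {x y : ℝ} (hxy : x ≤ y) : lay m x ≤ lay m y := by
  obtain ⟨h1, h2⟩ := lay_pow m
  unfold lay
  simp only [min_def]
  split_ifs <;> linarith

theorem lay_sum (M : ℕ) {x : ℝ} (hx : 0 ≤ x) :
    ∑ m ∈ Finset.range M, lay m x = min x (2 ^ M - 1) := by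
  unfold lay
  rw [Finset.sum_range_sub (fun m => min x ((2:ℝ) ^ m - 1))]
  simp [hx]

theorem lay_zero {m : ℕ} {x : ℝ} (hx : x ≤ 2 ^ m - 1) : lay m x = 0 := by
  obtain ⟨h1, h2⟩ := lay_pow m
  unfold lay
  rw [min_eq_left hx, min_eq_left (by linarith), sub_self]

theorem lay_abs (M : ℕ) {x y : ℝ} (hx : 0 ≤ x) (hy : 0 ≤ y) :
    ∑ m ∈ Finset.range M, |lay m x - lay m y| ≤ |x - y| := by
  wlog hxy : y ≤ x generalizing x y
  · simpa only [abs_sub_comm] using this hy hx (le_of_not_ge hxy)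
  rw [Finset.sum_congr rfl fun m _ => abs_of_nonneg (sub_nonneg.2 (lay_mono m hxy)),
    Finset.sum_sub_distrib, lay_sum M hx, lay_sum M hy, abs_of_nonneg (sub_nonneg.2 hxy)]
  simp only [min_def]
  split_ifs <;> linarith

theorem lay_div (m : ℕ) {x : ℝ} (hx : 0 ≤ x) : lay m x / x * x = lay m x := by
  rcases hx.eq_or_lt with rfl | h
  · rw [lay_zero (by have : (1:ℝ) ≤ 2 ^ m := one_le_pow₀ (by norm_num); linarith)]; simp
  · field_simp

theorem lay_div_sum (M : ℕ) {x : ℝ} (hx : 0 ≤ x) : ∑ m ∈ Finset.range M, lay m x / x ≤ 1 := by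
  rw [← Finset.sum_div, lay_sum M hx]
  exact div_le_one_of_le₀ (min_le_left _ _) hx

/-- the pieces of a vector -/
def pc (m : ℕ) (f : E) : E := (lay m ‖f‖ / ‖f‖) • f

theorem norm_pc (m : ℕ) (f : E) : ‖pc m f‖ = lay m ‖f‖ := by
  rw [pc, norm_smul, Real.norm_of_nonneg (div_nonneg (lay_nonneg _ _) (norm_nonneg _)),
    lay_div m (norm_nonneg f)]

theorem sum_pc {M : ℕ} {f : E} (hf : ‖f‖ ≤ 2 ^ M - 1) : ∑ m ∈ Finset.range M, pc m f = f := by
  by_cases h0 : f = 0
  · simp [pc, h0]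
  · simp only [pc]
    rw [← Finset.sum_smul, ← Finset.sum_div, lay_sum M (norm_nonneg f), min_eq_left hf,
      div_self (norm_ne_zero_iff.2 h0), one_smul]

theorem pc_lip (M : ℕ) (f g : E) :
    ∑ m ∈ Finset.range M, ‖pc m f - pc m g‖ ≤ 3 * ‖f - g‖ := by
  have hd : |‖f‖ - ‖g‖| ≤ ‖f - g‖ := abs_norm_sub_norm_le f g
  have h1 : ∀ m, ‖pc m f - pc m g‖ ≤
      lay m ‖f‖ / ‖f‖ * (2 * ‖f - g‖) + |lay m ‖f‖ - lay m ‖g‖| := by
    intro m
    have hl : 0 ≤ lay m ‖f‖ / ‖f‖ := div_nonneg (lay_nonneg _ _) (norm_nonneg _)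
    have e : pc m f - pc m g = (lay m ‖f‖ / ‖f‖) • (f - g) +
        (lay m ‖f‖ / ‖f‖ - lay m ‖g‖ / ‖g‖) • g := by simp only [pc]; module
    have e2 : (lay m ‖f‖ / ‖f‖ - lay m ‖g‖ / ‖g‖) * ‖g‖ =
        (lay m ‖f‖ - lay m ‖g‖) - lay m ‖f‖ / ‖f‖ * (‖f‖ - ‖g‖) := by
      rw [sub_mul, mul_sub, lay_div m (norm_nonneg f), lay_div m (norm_nonneg g)]; ring
    rw [e]
    refine (norm_add_le _ _).trans ?_
    rw [norm_smul, norm_smul, Real.norm_of_nonneg hl, Real.norm_eq_abs,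
      ← abs_of_nonneg (norm_nonneg g), ← abs_mul, abs_of_nonneg (norm_nonneg g), e2]
    have h3 := abs_sub (lay m ‖f‖ - lay m ‖g‖) (lay m ‖f‖ / ‖f‖ * (‖f‖ - ‖g‖))
    rw [abs_mul, abs_of_nonneg hl] at h3
    nlinarith [mul_le_mul_of_nonneg_left hd hl]
  refine (Finset.sum_le_sum fun m _ => h1 m).trans ?_
  rw [Finset.sum_add_distrib, ← Finset.sum_mul]
  have h2 := lay_abs M (norm_nonneg f) (norm_nonneg g)
  have h3 := mul_le_mul_of_nonneg_right (lay_div_sum M (norm_nonneg f))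
    (show 0 ≤ 2 * ‖f - g‖ by positivity)
  linarith

theorem exists_pow_ge (x : ℝ) : ∃ M : ℕ, x ≤ 2 ^ M - 1 := by
  obtain ⟨M, hM⟩ := pow_unbounded_of_one_lt (x + 1) (show (1:ℝ) < 2 by norm_num)
  exact ⟨M, by linarith⟩

/-- Gluing over norm layers. -/
theorem glue [CompleteSpace Y] (S : E →L[ℝ] E) (Q : Y →L[ℝ] E) {C : ℝ} (hC : 0 ≤ C)
    (H : ∀ κ : ℝ, 0 < κ → κ ≤ 1 → ∃ ψ : E → Y, (∀ f, ‖ψ f‖ ≤ C * ‖f‖) ∧
      (∀ f g, ∀ t : ℝ, 0 < t → t ≤ 1 → ‖ψ f - ψ g‖ ≤ C * ‖f - g‖ / t + C * κ * t * ‖f‖) ∧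
      (∀ f, ‖S f - Q (ψ f)‖ ≤ C * κ * ‖f‖ + C * κ))
    {ε : ℝ} (hε : 0 < ε) :
    ∃ Ψ : E → Y, UniformContinuous Ψ ∧ (∀ f, ‖Ψ f‖ ≤ C * ‖f‖) ∧ ∀ f, ‖S f - Q (Ψ f)‖ ≤ ε := by
  set k0 : ℝ := min 1 (ε / (4 * (C + 1))) with hk0
  have hk0p : 0 < k0 := lt_min one_pos (by positivity)
  have hk01 : k0 ≤ 1 := min_le_left _ _
  have hk0e : 4 * (C + 1) * k0 ≤ ε := by
    have := min_le_right 1 (ε / (4 * (C + 1)))
    rw [le_div_iff₀ (by positivity)] at this
    linarith
  set κ : ℕ → ℝ := fun m => k0 * (1 / 2) ^ m * (1 / 2) ^ m with hκ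
  have hh : ∀ m : ℕ, (1 / 2 : ℝ) ^ m ≤ 1 := fun m => pow_le_one₀ (by norm_num) (by norm_num)
  have hκp : ∀ m, 0 < κ m := fun m => by positivity
  have hκ2 : ∀ m, κ m ≤ k0 * (1 / 2) ^ m := fun m =>
    mul_le_of_le_one_right (by positivity) (hh m)
  have hκ1 : ∀ m, κ m ≤ 1 := fun m =>
    (hκ2 m).trans ((mul_le_of_le_one_right hk0p.le (hh m)).trans hk01)
  have hκ3 : ∀ m (f : E), κ m * ‖pc m f‖ ≤ k0 * (1 / 2) ^ m := fun m f => by
    rw [norm_pc]
    refine (mul_le_mul_of_nonneg_left (lay_le m _) (hκp m).le).trans (le_of_eq ?_)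
    simp only [hκ]
    rw [mul_assoc, ← mul_pow]; norm_num
  have hgeo : ∀ M, ∑ m ∈ Finset.range M, k0 * (1 / 2 : ℝ) ^ m ≤ 2 * k0 := fun M => by
    rw [← Finset.mul_sum]
    nlinarith [sum_geometric_two_le M]
  choose ψ h1 h2 h3 using fun m => H (κ m) (hκp m) (hκ1 m)
  have hfin : ∀ (M : ℕ) (f : E), ‖f‖ ≤ 2 ^ M - 1 →
      ∑' m, ψ m (pc m f) = ∑ m ∈ Finset.range M, ψ m (pc m f) := by
    intro M f hf
    refine tsum_eq_sum fun m hm => ?_
    have hm' : M ≤ m := by simpa using hm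
    have : (2:ℝ) ^ M ≤ 2 ^ m := pow_le_pow_right₀ (by norm_num) hm'
    have h4 := h1 m (pc m f)
    rw [norm_pc, lay_zero (by linarith), mul_zero] at h4
    exact norm_le_zero_iff.1 h4
  have hlip : ∀ (f g : E) (t : ℝ), 0 < t → t ≤ 1 →
      ‖∑' m, ψ m (pc m f) - ∑' m, ψ m (pc m g)‖ ≤ C * (3 * ‖f - g‖) / t + C * t * 2 := by
    intro f g t ht ht1
    obtain ⟨M, hM⟩ := exists_pow_ge (max ‖f‖ ‖g‖)
    rw [hfin M f ((le_max_left _ _).trans hM), hfin M g ((le_max_right _ _).trans hM),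
      ← Finset.sum_sub_distrib]
    refine (norm_sum_le _ _).trans ?_
    have h4 : ∀ m, ‖ψ m (pc m f) - ψ m (pc m g)‖ ≤
        C / t * ‖pc m f - pc m g‖ + C * t * (k0 * (1 / 2) ^ m) := fun m => by
      refine (h2 m _ _ t ht ht1).trans (add_le_add (le_of_eq (by ring)) ?_)
      have := mul_le_mul_of_nonneg_left (hκ3 m f) (show 0 ≤ C * t by positivity)
      linarith
    refine (Finset.sum_le_sum fun m _ => h4 m).trans ?_
    rw [Finset.sum_add_distrib, ← Finset.mul_sum, ← Finset.mul_sum]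
    refine add_le_add ?_ (mul_le_mul_of_nonneg_left (by linarith [hgeo M]) (by positivity))
    exact (mul_le_mul_of_nonneg_left (pc_lip M f g) (by positivity)).trans (le_of_eq (by ring))
  refine ⟨fun f => ∑' m, ψ m (pc m f), ?_, fun f => ?_, fun f => ?_⟩
  · rw [Metric.uniformContinuous_iff]
    intro η hη
    set t : ℝ := min 1 (η / (6 * (C + 1))) with htd
    have ht : 0 < t := lt_min one_pos (by positivity)
    have ht2 : 6 * (C + 1) * t ≤ η := by
      have := min_le_right 1 (η / (6 * (C + 1)))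
      rw [le_div_iff₀ (by positivity)] at this
      linarith
    refine ⟨t * t, by positivity, fun {f g} hfg => ?_⟩
    rw [dist_eq_norm] at hfg ⊢
    refine (hlip f g t ht (min_le_left _ _)).trans_lt ?_
    have : C * (3 * ‖f - g‖) / t ≤ C * (3 * t) := by
      rw [div_le_iff₀ ht]
      nlinarith [mul_le_mul_of_nonneg_left hfg.le hC]
    nlinarith [mul_nonneg hC ht.le]
  · obtain ⟨M, hM⟩ := exists_pow_ge ‖f‖
    simp only
    rw [hfin M f hM]
    refine (norm_sum_le _ _).trans ((Finset.sum_le_sum fun m _ => h1 m _).trans ?_)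
    simp only [norm_pc]
    rw [← Finset.mul_sum, lay_sum M (norm_nonneg f), min_eq_left hM]
  · obtain ⟨M, hM⟩ := exists_pow_ge ‖f‖
    simp only
    rw [hfin M f hM]
    conv_lhs => rw [← congrArg S (sum_pc hM)]
    rw [map_sum, map_sum, ← Finset.sum_sub_distrib]
    refine (norm_sum_le _ _).trans ?_
    have h4 : ∀ m, ‖S (pc m f) - Q (ψ m (pc m f))‖ ≤ 2 * C * (k0 * (1 / 2) ^ m) := fun m => by
      have e1 := mul_le_mul_of_nonneg_left (hκ3 m f) hC
      have e2 := mul_le_mul_of_nonneg_left (hκ2 m) hC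
      linarith [h3 m (pc m f)]
    refine (Finset.sum_le_sum fun m _ => h4 m).trans ?_
    rw [← Finset.mul_sum]
    nlinarith [mul_le_mul_of_nonneg_left (hgeo M) hC]

/-- From approximate to exact sections. -/
theorem exact_section [CompleteSpace Y] (q : Y →L[ℝ] E) {C : ℝ} (hC : 0 ≤ C)
    (H : ∀ ε : ℝ, 0 < ε → ∃ φ : E → Y, UniformContinuous φ ∧ (∀ f, ‖φ f‖ ≤ C * ‖f‖) ∧
      ∀ f, ‖f - q (φ f)‖ ≤ ε) :
    ∃ Φ : E → Y, UniformContinuous Φ ∧ (∀ f, ‖Φ f‖ ≤ C * (‖f‖ + 2)) ∧ ∀ f, q (Φ f) = f := by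
  choose φ h1 h2 h3 using fun j : ℕ => H ((1 / 2) ^ j) (by positivity)
  let x : ℕ → E → E := fun j => Nat.rec id (fun j xj f => xj f - q (φ j (xj f))) j
  have hx : ∀ j f, x (j + 1) f = x j f - q (φ j (x j f)) := fun _ _ => rfl
  have hxu : ∀ j, UniformContinuous (x j) := fun j => by
    induction j with
    | zero => exact uniformContinuous_id
    | succ j ih => exact ih.sub (q.uniformContinuous.comp ((h1 j).comp ih))
  have hb : ∀ j f, ‖φ (j + 1) (x (j + 1) f)‖ ≤ C * (1 / 2) ^ j := fun j f =>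
    (h2 _ _).trans (mul_le_mul_of_nonneg_left (h3 j _) hC)
  have hs : HasSum (fun j : ℕ => C * (1 / 2 : ℝ) ^ j) (C * 2) := hasSum_geometric_two.mul_left C
  have hsum : ∀ f, Summable fun j => φ (j + 1) (x (j + 1) f) := fun f =>
    Summable.of_norm_bounded hs.summable (fun j => hb j f)
  refine ⟨fun f => φ 0 f + ∑' j, φ (j + 1) (x (j + 1) f), (h1 0).add ?_, fun f => ?_, fun f => ?_⟩
  · refine (tendstoUniformly_tsum_nat hs.summable hb).uniformContinuous
      (Eventually.of_forall fun n => ?_).frequently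
    induction n with
    | zero => simpa using uniformContinuous_const
    | succ n ih =>
      simp only [Finset.sum_range_succ]
      exact ih.add ((h1 _).comp (hxu (n + 1)))
  · have := tsum_of_norm_bounded hs (fun j => hb j f)
    have h4 := norm_add_le (φ 0 f) (∑' j, φ (j + 1) (x (j + 1) f))
    linarith [h2 0 f]
  · have h5 := ((hsum f).hasSum.mapL q).tendsto_sum_nat
    have h6 : ∀ n, ∑ j ∈ Finset.range n, q (φ (j + 1) (x (j + 1) f)) = x 1 f - x (n + 1) f := by
      intro n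
      induction n with
      | zero => simp
      | succ n ih => rw [Finset.sum_range_succ, ih, hx (n + 1)]; abel
    simp only [h6] at h5
    have h7 : Tendsto (fun n => x (n + 1) f) atTop (𝓝 0) :=
      squeeze_zero_norm (fun n => h3 n _)
        (tendsto_pow_atTop_nhds_zero_of_lt_one (by norm_num) (by norm_num))
    have h8 := tendsto_nhds_unique h5 (tendsto_const_nhds.sub h7)
    simp only
    rw [map_add, h8]
    show q (φ 0 f) + (f - q (φ 0 f) - 0) = f
    abel

end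

end Pool.Agent.MP_fc1aea_an.H30
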